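import Mathlib

/-! # Davenport's inequality, and the polynomial part of `g ^ (2 / 3)` -/

set_option autoImplicit false

namespace T9h23.Dv

open Finset Polynomial

/-- **Davenport's inequality**: `f ^ 2 - p ^ 3` is zero or has degree at least `e + 1`. -/
theorem davenport (e : ℕ) (he : 1 ≤ e) (f p : ℚ[X]) (hf : f.Monic) (hfd : f.natDegree = 3 * e) (hp : p.Monic)
    (hpd : p.natDegree = 2 * e) (hR : f ^ 2 - p ^ 3 ≠ 0) : e + 1 ≤ (f ^ 2 - p ^ 3).natDegree := by
  by_contra hcon
  push Not at hcon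
  obtain ⟨R, hRd⟩ : ∃ R : ℚ[X], R = f ^ 2 - p ^ 3 := ⟨_, rfl⟩
  rw [← hRd] at hR hcon
  have hre : R.natDegree ≤ e := by omega
  obtain ⟨W, hW⟩ : ∃ W : ℚ[X], W = 2 * p * derivative f - 3 * derivative p * f := ⟨_, rfl⟩
  have h1 : p ^ 2 * W = f * derivative R - 2 * derivative f * R := by
    rw [hW, hRd, derivative_sub, derivative_pow, derivative_pow]
    push_cast
    simp only [map_ofNat]
    ring
  have hfd' : (derivative f).natDegree ≤ 3 * e - 1 := by
    have := natDegree_derivative_le f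
    omega
  have hRd' : (derivative R).natDegree ≤ R.natDegree - 1 := natDegree_derivative_le R
  have hp0 : p ≠ 0 := hp.ne_zero
  rcases Nat.eq_zero_or_pos R.natDegree with h0 | h0
  · -- constant
    have hRc : derivative R = 0 := derivative_of_natDegree_zero h0
    rw [hRc, mul_zero, zero_sub] at h1
    have h2 : (2 * derivative f * R).natDegree ≤ 3 * e - 1 := by
      calc (2 * derivative f * R).natDegree ≤ (2 * derivative f).natDegree + R.natDegree := natDegree_mul_le
        _ ≤ (derivative f).natDegree + 0 := by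
            rw [h0]
            gcongr
            have : (2 : ℚ[X]) = C 2 := (map_ofNat C 2).symm
            rw [this]
            exact natDegree_C_mul_le _ _
        _ ≤ 3 * e - 1 := by omega
    by_cases hW0 : W = 0
    · rw [hW0, mul_zero] at h1
      have h3 : derivative f * R = 0 := by
        have h4 : 2 * (derivative f * R) = 0 := by linear_combination h1
        have : (2 : ℚ[X]) ≠ 0 := two_ne_zero
        exact (mul_eq_zero.1 h4).resolve_left this
      rcases mul_eq_zero.1 h3 with h4 | h4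
      · have h5 : (derivative f).coeff (3 * e - 1) = (0 : ℚ[X]).coeff (3 * e - 1) := by rw [h4]
        rw [coeff_derivative, coeff_zero, Nat.sub_add_cancel (by omega : 1 ≤ 3 * e), ← hfd, hf.coeff_natDegree, one_mul] at h5
        have h6 : (0 : ℚ) ≤ ((f.natDegree - 1 : ℕ) : ℚ) := by positivity
        linarith
      · exact hR h4
    · have h3 : (p ^ 2 * W).natDegree = 4 * e + W.natDegree := by
        rw [natDegree_mul (pow_ne_zero _ hp0) hW0, natDegree_pow, hpd]
        ring
      have h4 : (-(2 * derivative f * R)).natDegree = (p ^ 2 * W).natDegree := by rw [h1]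
      rw [natDegree_neg] at h4
      omega
  · by_cases hW0 : W = 0
    · rw [hW0, mul_zero] at h1
      have h2 : f * derivative R = 2 * (derivative f * R) := by linear_combination -h1
      have h3 : (f * derivative R).coeff (3 * e + (R.natDegree - 1)) =
          (2 * (derivative f * R)).coeff (3 * e + (R.natDegree - 1)) := by rw [h2]
      have e1 : (f * derivative R).coeff (3 * e + (R.natDegree - 1)) = R.coeff R.natDegree * R.natDegree := by
        rw [coeff_mul_add_eq_of_natDegree_le (le_of_eq hfd) hRd', ← hfd, hf.coeff_natDegree, one_mul, coeff_derivative,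
          Nat.sub_add_cancel h0]
        have : ((R.natDegree - 1 : ℕ) : ℚ) + 1 = R.natDegree := by
          rw [Nat.cast_sub h0]; push_cast; ring
        rw [this]
      have e2 : (2 * (derivative f * R)).coeff (3 * e + (R.natDegree - 1)) = 2 * ((3 * e : ℕ) * R.coeff R.natDegree) := by
        have h5 : (2 : ℚ[X]) = C 2 := (map_ofNat C 2).symm
        rw [h5, coeff_C_mul]
        congr 1
        have h6 : 3 * e + (R.natDegree - 1) = (3 * e - 1) + R.natDegree := by omega
        rw [h6, coeff_mul_add_eq_of_natDegree_le hfd' le_rfl, coeff_derivative, Nat.sub_add_cancel (by omega : 1 ≤ 3 * e),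
          ← hfd, hf.coeff_natDegree, one_mul]
        congr 1
        rw [Nat.cast_sub (by omega)]; push_cast; ring
      rw [e1, e2] at h3
      have hlc : R.coeff R.natDegree ≠ 0 := by
        rw [coeff_natDegree]; exact leadingCoeff_ne_zero.2 hR
      have h4 : (R.natDegree : ℚ) = 2 * (3 * e : ℕ) := by
        apply mul_left_cancel₀ hlc
        linarith
      have h5 : R.natDegree = 2 * (3 * e) := by exact_mod_cast h4
      omega
    · have h3 : (p ^ 2 * W).natDegree = 4 * e + W.natDegree := by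
        rw [natDegree_mul (pow_ne_zero _ hp0) hW0, natDegree_pow, hpd]
        ring
      have h2 : (f * derivative R - 2 * derivative f * R).natDegree ≤ 3 * e + R.natDegree - 1 := by
        refine (natDegree_sub_le _ _).trans (max_le ?_ ?_)
        · refine natDegree_mul_le.trans ?_
          omega
        · refine natDegree_mul_le.trans ?_
          have : (2 * derivative f).natDegree ≤ (derivative f).natDegree := by
            have h5 : (2 : ℚ[X]) = C 2 := (map_ofNat C 2).symm
            rw [h5]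
            exact natDegree_C_mul_le _ _
          omega
      rw [← h1, h3] at h2
      omega

/-- the polynomial part of `g ^ (2 / 3)` -/
theorem exists_root (e : ℕ) (he : 1 ≤ e) (g : ℚ[X]) (hg : g.Monic) (hgd : g.natDegree = 3 * e) :
    ∃ p : ℚ[X], p.Monic ∧ p.natDegree = 2 * e ∧ (g ^ 2 - p ^ 3).degree < (4 * e : ℕ) := by
  have key : ∀ j ≤ 2 * e, ∃ p : ℚ[X], p.Monic ∧ p.natDegree = 2 * e ∧ ∀ k, 6 * e - j ≤ k → (g ^ 2 - p ^ 3).coeff k = 0 := by
    intro j
    induction j with
    | zero =>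
      intro _
      refine ⟨X ^ (2 * e), monic_X_pow _, natDegree_X_pow _, ?_⟩
      intro k hk
      rw [coeff_sub]
      have hg2 : (g ^ 2).natDegree = 6 * e := by rw [hg.natDegree_pow, hgd]; ring
      have hg2m : (g ^ 2).Monic := hg.pow 2
      rcases (show 6 * e ≤ k by omega).eq_or_lt with h | h
      · rw [← h]
        have h1 : (g ^ 2).coeff (6 * e) = 1 := by
          rw [← hg2]; exact hg2m
        rw [h1, ← pow_mul, coeff_X_pow, if_pos (by ring), sub_self]
      · rw [coeff_eq_zero_of_natDegree_lt (by omega), ← pow_mul, coeff_X_pow, if_neg (by omega), sub_zero]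
    | succ j ih =>
      intro hj
      obtain ⟨p, hp, hpd, hk⟩ := ih (by omega)
      obtain ⟨m, hm⟩ : ∃ m, m = 6 * e - (j + 1) := ⟨_, rfl⟩
      obtain ⟨c, hc⟩ : ∃ c : ℚ, c = (g ^ 2 - p ^ 3).coeff m := ⟨_, rfl⟩
      obtain ⟨δ, hδ⟩ : ∃ δ : ℚ[X], δ = C (c / 3) * X ^ (m - 4 * e) := ⟨_, rfl⟩
      have hδd : δ.natDegree ≤ m - 4 * e := by rw [hδ]; exact natDegree_C_mul_X_pow_le _ _
      have hδlt : δ.degree < p.degree := by
        rw [degree_eq_natDegree hp.ne_zero, hpd, hδ]
        refine (degree_C_mul_X_pow_le _ _).trans_lt ?_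
        exact_mod_cast (by omega : m - 4 * e < 2 * e)
      refine ⟨p + δ, hp.add_of_left hδlt, ?_, ?_⟩
      · rw [natDegree_add_eq_left_of_degree_lt hδlt, hpd]
      · intro k hk2
        have e1 : g ^ 2 - (p + δ) ^ 3 = (g ^ 2 - p ^ 3) - (C c * (X ^ (m - 4 * e) * p ^ 2) + 3 * p * δ ^ 2 + δ ^ 3) := by
          have h1 : 3 * δ = C c * X ^ (m - 4 * e) := by
            rw [hδ]
            have h2 : (3 : ℚ[X]) = C 3 := (map_ofNat C 3).symm
            rw [h2, ← mul_assoc, ← C_mul]
            congr 2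
            field_simp
          linear_combination -(p ^ 2) * h1
        rw [e1, coeff_sub, coeff_add, coeff_add]
        have h3 : (3 * p * δ ^ 2).coeff k = 0 := by
          apply coeff_eq_zero_of_natDegree_lt
          have h5 : (3 : ℚ[X]) = C 3 := (map_ofNat C 3).symm
          calc (3 * p * δ ^ 2).natDegree ≤ (3 * p).natDegree + (δ ^ 2).natDegree := natDegree_mul_le
            _ ≤ 2 * e + 2 * (m - 4 * e) := by
                gcongr
                · rw [h5, ← hpd]; exact natDegree_C_mul_le _ _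
                · exact natDegree_pow_le_of_le 2 hδd
            _ < k := by omega
        have h4 : (δ ^ 3).coeff k = 0 := by
          apply coeff_eq_zero_of_natDegree_lt
          calc (δ ^ 3).natDegree ≤ 3 * (m - 4 * e) := natDegree_pow_le_of_le 3 hδd
            _ < k := by omega
        rw [h3, h4, add_zero, add_zero, coeff_C_mul]
        have hp2 : (p ^ 2).natDegree = 4 * e := by rw [hp.natDegree_pow, hpd]; ring
        have hp2m : (p ^ 2).Monic := hp.pow 2
        rcases (show m ≤ k by omega).eq_or_lt with h | h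
        · rw [← h, ← hc]
          have h5 : (X ^ (m - 4 * e) * p ^ 2).coeff m = 1 := by
            have h6 : m = 4 * e + (m - 4 * e) := by omega
            have h7 : (X ^ (m - 4 * e) * p ^ 2).coeff (4 * e + (m - 4 * e)) = (p ^ 2).coeff (4 * e) :=
              coeff_X_pow_mul _ _ _
            rw [← h6] at h7
            rw [h7, ← hp2]
            exact hp2m
          rw [h5, mul_one, sub_self]
        · rw [hk k (by omega)]
          have h5 : (X ^ (m - 4 * e) * p ^ 2).coeff k = 0 := by
            apply coeff_eq_zero_of_natDegree_lt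
            calc (X ^ (m - 4 * e) * p ^ 2).natDegree ≤ (X ^ (m - 4 * e) : ℚ[X]).natDegree + (p ^ 2).natDegree :=
                  natDegree_mul_le
              _ = (m - 4 * e) + 4 * e := by rw [natDegree_X_pow, hp2]
              _ < k := by omega
          rw [h5, mul_zero, sub_zero]
  obtain ⟨p, hp, hpd, hk⟩ := key (2 * e) le_rfl
  refine ⟨p, hp, hpd, ?_⟩
  rw [degree_lt_iff_coeff_zero]
  intro k hk2
  exact hk k (by omega)

/-- common denominators of the values -/
theorem den_eval (P : ℚ[X]) : ∃ D : ℕ, 0 < D ∧ ∀ n : ℤ, ∃ z : ℤ, (D : ℚ) * P.eval (n : ℚ) = z := by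
  induction P using Polynomial.induction_on' with
  | add P Q hP hQ =>
    obtain ⟨D₁, h1, h2⟩ := hP
    obtain ⟨D₂, h3, h4⟩ := hQ
    refine ⟨D₁ * D₂, Nat.mul_pos h1 h3, ?_⟩
    intro n
    obtain ⟨z₁, e1⟩ := h2 n
    obtain ⟨z₂, e2⟩ := h4 n
    refine ⟨D₂ * z₁ + D₁ * z₂, ?_⟩
    rw [eval_add]
    push_cast
    rw [← e1, ← e2]
    ring
  | monomial k c =>
    refine ⟨c.den, c.pos, ?_⟩
    intro n
    refine ⟨c.num * n ^ k, ?_⟩
    rw [eval_monomial]
    push_cast
    rw [← mul_assoc]
    congr 1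
    rw [mul_comm]
    exact Rat.mul_den_eq_num _

/-- upper bounds for the values -/
theorem eval_upper (P : ℚ[X]) (m : ℕ) (h : P.natDegree ≤ m) : ∃ B : ℝ, 0 < B ∧ ∀ n : ℤ, n ≠ 0 →
    |((P.eval (n : ℚ) : ℚ) : ℝ)| ≤ B * |(n : ℝ)| ^ m := by
  refine ⟨∑ i ∈ range (m + 1), |(P.coeff i : ℝ)| + 1, by positivity, ?_⟩
  intro n hn
  have hn1 : (1 : ℝ) ≤ |(n : ℝ)| := by
    have : 1 ≤ |n| := Int.one_le_abs hn
    exact_mod_cast this
  rw [eval_eq_sum_range' (n := m + 1) (by omega)]
  push_cast
  refine (Finset.abs_sum_le_sum_abs _ _).trans ?_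
  rw [add_mul, Finset.sum_mul]
  refine le_trans (Finset.sum_le_sum fun i hi => ?_) (le_add_of_nonneg_right (by positivity))
  rw [mem_range] at hi
  rw [abs_mul, abs_pow]
  exact mul_le_mul_of_nonneg_left (pow_le_pow_right₀ hn1 (by omega)) (abs_nonneg _)

/-- lower bounds for the values -/
theorem eval_lower (P : ℚ[X]) (hP : P ≠ 0) : ∃ B N : ℝ, 0 < B ∧ 1 ≤ N ∧ ∀ n : ℤ, N ≤ |(n : ℝ)| →
    B * |(n : ℝ)| ^ P.natDegree ≤ |((P.eval (n : ℚ) : ℚ) : ℝ)| := by
  obtain ⟨A, hA, h⟩ := eval_upper P.eraseLead (P.natDegree - 1) (eraseLead_natDegree_le P)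
  have hlc : (0 : ℝ) < |(P.leadingCoeff : ℝ)| := by
    rw [abs_pos]
    exact_mod_cast leadingCoeff_ne_zero.2 hP
  rcases Nat.eq_zero_or_pos P.natDegree with h0 | h0
  · refine ⟨|(P.leadingCoeff : ℝ)|, 1, hlc, le_rfl, ?_⟩
    intro n _
    rw [h0, pow_zero, mul_one]
    have h1 : P = C (P.coeff 0) := eq_C_of_natDegree_eq_zero h0
    have h2 : P.leadingCoeff = P.coeff 0 := by rw [leadingCoeff, h0]
    rw [h2]
    nth_rewrite 2 [h1]
    rw [eval_C]
  · refine ⟨|(P.leadingCoeff : ℝ)| / 2, 2 * A / |(P.leadingCoeff : ℝ)| + 1, by positivity,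
      by have : 0 ≤ 2 * A / |(P.leadingCoeff : ℝ)| := by positivity
         linarith, ?_⟩
    intro n hn
    have hn1 : (1 : ℝ) ≤ |(n : ℝ)| := by
      have : 0 ≤ 2 * A / |(P.leadingCoeff : ℝ)| := by positivity
      linarith
    have hn0 : n ≠ 0 := by
      rintro rfl
      simp at hn1
      linarith
    have h1 := h n hn0
    have h2 : P.eval (n : ℚ) = P.eraseLead.eval (n : ℚ) + P.leadingCoeff * (n : ℚ) ^ P.natDegree := by
      nth_rewrite 1 [← eraseLead_add_C_mul_X_pow P]
      rw [eval_add, eval_mul, eval_C, eval_pow, eval_X]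
    have h3 : ((P.eval (n : ℚ) : ℚ) : ℝ) = ((P.eraseLead.eval (n : ℚ) : ℚ) : ℝ) +
        (P.leadingCoeff : ℝ) * (n : ℝ) ^ P.natDegree := by
      rw [h2]; push_cast; ring
    rw [h3]
    have h4 : |(P.leadingCoeff : ℝ) * (n : ℝ) ^ P.natDegree| ≤ |((P.eraseLead.eval (n : ℚ) : ℚ) : ℝ)| +
        |((P.eraseLead.eval (n : ℚ) : ℚ) : ℝ) + (P.leadingCoeff : ℝ) * (n : ℝ) ^ P.natDegree| := by
      have h5 : (P.leadingCoeff : ℝ) * (n : ℝ) ^ P.natDegree = -((P.eraseLead.eval (n : ℚ) : ℚ) : ℝ) +
          (((P.eraseLead.eval (n : ℚ) : ℚ) : ℝ) + (P.leadingCoeff : ℝ) * (n : ℝ) ^ P.natDegree) := by ring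
      nth_rewrite 1 [h5]
      refine (abs_add_le _ _).trans ?_
      rw [abs_neg]
    rw [abs_mul, abs_pow] at h4
    have h5 : |(n : ℝ)| ^ P.natDegree = |(n : ℝ)| ^ (P.natDegree - 1) * |(n : ℝ)| := by
      rw [← pow_succ]; congr 1; omega
    have h6 : A * |(n : ℝ)| ^ (P.natDegree - 1) ≤ |(P.leadingCoeff : ℝ)| / 2 * |(n : ℝ)| ^ P.natDegree := by
      have h7 : A ≤ |(P.leadingCoeff : ℝ)| / 2 * |(n : ℝ)| := by
        have h8 : 2 * A / |(P.leadingCoeff : ℝ)| ≤ |(n : ℝ)| := by linarith
        rw [div_le_iff₀ hlc] at h8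
        linarith
      rw [h5]
      calc A * |(n : ℝ)| ^ (P.natDegree - 1) ≤ (|(P.leadingCoeff : ℝ)| / 2 * |(n : ℝ)|) * |(n : ℝ)| ^ (P.natDegree - 1) := by
            gcongr
        _ = _ := by ring
    linarith

end T9h23.Dv
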