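import Pool.Agent.T9h23.Dv.V1

/-! # Large arguments, degree at least `6` -/

set_option autoImplicit false

namespace T9h23.Dv

open Finset Polynomial

/-- a real cube root of a square -/
theorem exists_s (y : ℝ) : ∃ s : ℝ, 0 ≤ s ∧ s ^ 3 = y ^ 2 := by
  refine ⟨(y ^ 2) ^ (1 / 3 : ℝ), by positivity, ?_⟩
  rw [← Real.rpow_natCast, ← Real.rpow_mul (by positivity)]
  norm_num

/-- `s ^ 3 - x ^ 3` from below -/
theorem cube_sub (s x : ℝ) : |s - x| * (3 / 4 * s ^ 2) ≤ |s ^ 3 - x ^ 3| ∧ |s - x| * (3 / 4 * x ^ 2) ≤ |s ^ 3 - x ^ 3| := by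
  have hfac : s ^ 3 - x ^ 3 = (s - x) * (s ^ 2 + s * x + x ^ 2) := by ring
  have hq1 : 3 / 4 * s ^ 2 ≤ s ^ 2 + s * x + x ^ 2 := by nlinarith [sq_nonneg (s / 2 + x)]
  have hq2 : 3 / 4 * x ^ 2 ≤ s ^ 2 + s * x + x ^ 2 := by nlinarith [sq_nonneg (s + x / 2)]
  have hq0 : 0 ≤ s ^ 2 + s * x + x ^ 2 := le_trans (by positivity) hq1
  rw [hfac, abs_mul, abs_of_nonneg hq0]
  constructor
  · gcongr
  · gcongr

/-- from a linear bound to the general one -/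
theorem of_linear (e : ℕ) (he : 1 ≤ e) (A x k : ℝ) (hA : 0 ≤ A) (hk : 1 ≤ k) (hx0 : 0 ≤ x) (hx : x ≤ A * k) :
    x ^ (e + 1) ≤ A ^ (e + 1) * k ^ (2 * e) := by
  calc x ^ (e + 1) ≤ (A * k) ^ (e + 1) := by gcongr
    _ = A ^ (e + 1) * k ^ (e + 1) := mul_pow _ _ _
    _ ≤ A ^ (e + 1) * k ^ (2 * e) := by
        gcongr
        omega

/-- **Large arguments.** -/
theorem largeD (e : ℕ) (he : 1 ≤ e) (G : ℤ[X]) (hG : G.Monic) (hGd : G.natDegree = 3 * e) :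
    ∃ C N : ℝ, 1 ≤ C ∧ 1 ≤ N ∧ ∀ n q x : ℤ, N ≤ |(n : ℝ)| → N * |(q : ℝ)| ≤ |(n : ℝ)| ^ e →
      (G.eval n + q) ^ 2 ≠ x ^ 3 →
      |(x : ℝ)| ^ (e + 1) ≤ C * |(((G.eval n + q) ^ 2 - x ^ 3 : ℤ) : ℝ)| ^ (2 * e) := by
  obtain ⟨g, hg_def⟩ : ∃ g : ℚ[X], g = G.map (Int.castRingHom ℚ) := ⟨_, rfl⟩
  have hg : g.Monic := by rw [hg_def]; exact hG.map _
  have hgd : g.natDegree = 3 * e := by rw [hg_def, hG.natDegree_map, hGd]
  have hev : ∀ n : ℤ, g.eval (n : ℚ) = ((G.eval n : ℤ) : ℚ) := by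
    intro n
    rw [hg_def, eval_intCast_map]
    rfl
  obtain ⟨p, hp, hpd, hE⟩ := exists_root e he g hg hgd
  obtain ⟨E, hEd⟩ : ∃ E : ℚ[X], E = g ^ 2 - p ^ 3 := ⟨_, rfl⟩
  rw [← hEd] at hE
  obtain ⟨ρ, hρ⟩ : ∃ ρ : ℚ[X], ρ = E %ₘ g := ⟨_, rfl⟩
  obtain ⟨Q, hQ⟩ : ∃ Q : ℚ[X], Q = E /ₘ g := ⟨_, rfl⟩
  have hEQ : E = ρ + g * Q := by rw [hρ, hQ]; exact (modByMonic_add_div E g).symm
  have hEn : E.natDegree ≤ 4 * e - 1 := by
    rcases eq_or_ne E 0 with h | h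
    · rw [h, natDegree_zero]; omega
    · have := (natDegree_lt_iff_degree_lt h).2 hE
      omega
  have hρd : ρ.natDegree ≤ 3 * e - 1 := by
    have h1 : ρ.natDegree < g.natDegree := by
      rw [hρ]
      apply natDegree_modByMonic_lt E hg
      rintro h1
      rw [h1, natDegree_one] at hgd
      omega
    omega
  have hQd : Q.natDegree ≤ e - 1 := by
    rw [hQ, natDegree_divByMonic E hg, hgd]
    omega
  obtain ⟨q₀, hq₀⟩ : ∃ q₀ : ℚ[X], q₀ = C (-1 / 2) * Q := ⟨_, rfl⟩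
  have hq₀d : q₀.natDegree ≤ e - 1 := by
    rw [hq₀]; exact (natDegree_C_mul_le _ _).trans hQd
  have hQq : Q = C (-2) * q₀ := by
    rw [hq₀, ← mul_assoc, ← C_mul]
    norm_num
  obtain ⟨R, hR⟩ : ∃ R : ℚ[X], R = (g + q₀) ^ 2 - p ^ 3 := ⟨_, rfl⟩
  have hR2 : R = ρ + q₀ ^ 2 := by
    have h1 : R = E + 2 * g * q₀ + q₀ ^ 2 := by rw [hR, hEd]; ring
    have h2 : g * Q = -(2 * g * q₀) := by
      rw [hQq, C_neg]
      have : (C 2 : ℚ[X]) = 2 := map_ofNat C 2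
      rw [this]; ring
    rw [h1, hEQ, h2]
    ring
  -- the constants
  obtain ⟨D₁, hD₁, hden₁⟩ := den_eval p
  obtain ⟨D₂, hD₂, hden₂⟩ := den_eval q₀
  obtain ⟨Bg, hBg, hgu⟩ := eval_upper g (3 * e) (le_of_eq hgd)
  obtain ⟨Bg', Ng, hBg', hNg, hgl⟩ := eval_lower g hg.ne_zero
  obtain ⟨Bp, hBp, hpu⟩ := eval_upper p (2 * e) (le_of_eq hpd)
  obtain ⟨Bp', Np, hBp', hNp, hpl⟩ := eval_lower p hp.ne_zero
  obtain ⟨Br, hBr, hru⟩ := eval_upper ρ (3 * e - 1) hρd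
  obtain ⟨Bq, hBq, hqu⟩ := eval_upper q₀ (e - 1) hq₀d
  obtain ⟨BR, NR, hBR, hNR, hRl⟩ : ∃ BR NR : ℝ, 0 < BR ∧ 1 ≤ NR ∧ ∀ n : ℤ, NR ≤ |(n : ℝ)| → R.eval (n : ℚ) ≠ 0 →
      BR * |(n : ℝ)| ^ (e + 1) ≤ |((R.eval (n : ℚ) : ℚ) : ℝ)| := by
    by_cases hR0 : R = 0
    · refine ⟨1, 1, one_pos, le_rfl, ?_⟩
      intro n _ h
      rw [hR0, eval_zero] at h
      exact absurd rfl h
    · have hgq : (g + q₀).Monic := by
        apply hg.add_of_left
        apply degree_lt_degree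
        omega
      have hgqd : (g + q₀).natDegree = 3 * e := by
        rw [natDegree_add_eq_left_of_natDegree_lt (by omega), hgd]
      have hdav : e + 1 ≤ R.natDegree := by
        rw [hR]
        apply davenport e he _ _ hgq hgqd hp hpd
        rw [← hR]
        exact hR0
      obtain ⟨B, N, hB, hN, h⟩ := eval_lower R hR0
      refine ⟨B, N, hB, hN, ?_⟩
      intro n hn _
      refine le_trans ?_ (h n hn)
      have : 1 ≤ |(n : ℝ)| := hN.trans hn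
      gcongr
  have hD₁r : (1 : ℝ) ≤ D₁ := by exact_mod_cast hD₁
  have hD₂r : (1 : ℝ) ≤ D₂ := by exact_mod_cast hD₂
  obtain ⟨S, hS⟩ : ∃ S : ℝ, S = Br + 2 * Bg + 2 * Bg * Bq + 1 := ⟨_, rfl⟩
  have hS0 : 0 < S := by rw [hS]; positivity
  obtain ⟨N, hN⟩ : ∃ N : ℝ, N = Ng + Np + NR + S * (8 * D₁) / (3 * Bp' ^ 2) + (Br + 1) * D₂ / Bg' := ⟨_, rfl⟩
  have hNa : 0 ≤ S * (8 * D₁) / (3 * Bp' ^ 2) := by positivity
  have hNb : 0 ≤ (Br + 1) * D₂ / Bg' := by positivity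
  have hN1 : 1 ≤ N := by rw [hN]; linarith
  obtain ⟨A₁, hA₁⟩ : ∃ A₁ : ℝ, A₁ = 3 * D₁ := ⟨_, rfl⟩
  obtain ⟨A₂, hA₂⟩ : ∃ A₂ : ℝ, A₂ = Bp * D₂ / Bg' := ⟨_, rfl⟩
  have hA₁0 : 0 < A₁ := by rw [hA₁]; positivity
  have hA₂0 : 0 < A₂ := by rw [hA₂]; positivity
  obtain ⟨A₃, hA₃⟩ : ∃ A₃ : ℝ, A₃ = Bp ^ (e + 1) / BR ^ (2 * e) := ⟨_, rfl⟩
  have hA₃0 : 0 < A₃ := by rw [hA₃]; positivity
  have hp1 : 0 < A₁ ^ (e + 1) := by positivity
  have hp2 : 0 < A₂ ^ (e + 1) := by positivity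
  refine ⟨A₁ ^ (e + 1) + A₂ ^ (e + 1) + A₃ + 1, N, by linarith, hN1, ?_⟩
  intro n q x hn hq hne
  obtain ⟨m, hm⟩ : ∃ m : ℝ, m = |(n : ℝ)| := ⟨_, rfl⟩
  obtain ⟨k, hk⟩ : ∃ k : ℤ, k = (G.eval n + q) ^ 2 - x ^ 3 := ⟨_, rfl⟩
  have hk0 : k ≠ 0 := by rw [hk]; exact sub_ne_zero.2 hne
  have hk1 : (1 : ℝ) ≤ |(k : ℝ)| := by
    have : 1 ≤ |k| := Int.one_le_abs hk0
    exact_mod_cast this
  rw [← hk]
  rw [← hm] at hn hq
  have hm1 : 1 ≤ m := hN1.trans hn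
  have hm0 : 0 < m := by linarith
  have hn0 : n ≠ 0 := by
    rintro rfl
    rw [Int.cast_zero, abs_zero] at hm
    linarith
  -- the values
  obtain ⟨γ, hγ⟩ : ∃ γ : ℝ, γ = ((G.eval n : ℤ) : ℝ) := ⟨_, rfl⟩
  obtain ⟨P, hP⟩ : ∃ P : ℝ, P = ((p.eval (n : ℚ) : ℚ) : ℝ) := ⟨_, rfl⟩
  obtain ⟨r, hr⟩ : ∃ r : ℝ, r = ((ρ.eval (n : ℚ) : ℚ) : ℝ) := ⟨_, rfl⟩
  obtain ⟨v, hv⟩ : ∃ v : ℝ, v = ((q₀.eval (n : ℚ) : ℚ) : ℝ) := ⟨_, rfl⟩
  have hγ' : ((g.eval (n : ℚ) : ℚ) : ℝ) = γ := by rw [hev, hγ]; push_cast; rfl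
  have b1 : |γ| ≤ Bg * m ^ (3 * e) := by rw [← hγ', hm]; exact hgu n hn0
  have b2 : Bg' * m ^ (3 * e) ≤ |γ| := by
    have h1 := hgl n (by rw [← hm]; linarith)
    rw [hgd, ← hm, hγ'] at h1
    exact h1
  have b3 : |P| ≤ Bp * m ^ (2 * e) := by rw [hP, hm]; exact hpu n hn0
  have b4 : Bp' * m ^ (2 * e) ≤ |P| := by
    have h1 := hpl n (by rw [← hm]; linarith)
    rw [hpd, ← hm, ← hP] at h1
    exact h1
  have b5 : |r| ≤ Br * m ^ (3 * e - 1) := by rw [hr, hm]; exact hru n hn0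
  have b6 : |v| ≤ Bq * m ^ (e - 1) := by rw [hv, hm]; exact hqu n hn0
  have hEv : γ ^ 2 - P ^ 3 = r - 2 * γ * v := by
    have h1 : E.eval (n : ℚ) = ρ.eval (n : ℚ) + g.eval (n : ℚ) * Q.eval (n : ℚ) := by
      nth_rewrite 1 [hEQ]
      rw [eval_add, eval_mul]
    have h2 : E.eval (n : ℚ) = g.eval (n : ℚ) ^ 2 - p.eval (n : ℚ) ^ 3 := by
      rw [hEd, eval_sub, eval_pow, eval_pow]
    have h3 : Q.eval (n : ℚ) = -2 * q₀.eval (n : ℚ) := by
      nth_rewrite 1 [hQq]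
      rw [eval_mul, eval_C]
    rw [h2, h3] at h1
    have h4 := congrArg (fun t : ℚ => (t : ℝ)) h1
    push_cast at h4
    rw [hγ', ← hP, ← hr, ← hv] at h4
    linarith
  -- the difference for the polynomial root
  have hk0' : (γ + q) ^ 2 - P ^ 3 = r + 2 * γ * (q - v) + q ^ 2 := by linear_combination hEv
  have hkr : (k : ℝ) = (γ + q) ^ 2 - (x : ℝ) ^ 3 := by rw [hk, hγ]; push_cast; ring
  have hq2 : (q : ℝ) ^ 2 * N ≤ m ^ (2 * e) := by
    have h1 : (N * |(q : ℝ)|) ^ 2 ≤ (m ^ e) ^ 2 := by gcongr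
    rw [mul_pow, sq_abs, ← pow_mul, mul_comm e 2] at h1
    have h2 : N ≤ N ^ 2 := le_self_pow₀ hN1 (by norm_num)
    calc (q : ℝ) ^ 2 * N ≤ (q : ℝ) ^ 2 * N ^ 2 := by gcongr
      _ = N ^ 2 * (q : ℝ) ^ 2 := by ring
      _ ≤ _ := h1
  have mpow : ∀ i j : ℕ, i ≤ j → m ^ i ≤ m ^ j := fun i j h => pow_le_pow_right₀ hm1 h
  by_cases hxP : (x : ℝ) = P
  · by_cases hqv : (q : ℝ) = v
    · -- the exceptional polynomial
      have h1 : (k : ℝ) = ((R.eval (n : ℚ) : ℚ) : ℝ) := by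
        have h2 : R.eval (n : ℚ) = ρ.eval (n : ℚ) + q₀.eval (n : ℚ) ^ 2 := by
          rw [hR2, eval_add, eval_pow]
        rw [h2]
        push_cast
        rw [← hr, ← hv, hkr, hxP, hk0', hqv]
        ring
      have h2 : R.eval (n : ℚ) ≠ 0 := by
        intro h3
        rw [h3] at h1
        push_cast at h1
        exact hk0 (by exact_mod_cast h1)
      have h3 := hRl n (by rw [← hm]; linarith) h2
      rw [← h1, ← hm] at h3
      have h4 : |(x : ℝ)| ^ (e + 1) ≤ Bp ^ (e + 1) * m ^ (2 * e * (e + 1)) := by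
        rw [hxP]
        calc |P| ^ (e + 1) ≤ (Bp * m ^ (2 * e)) ^ (e + 1) := by gcongr
          _ = _ := by rw [mul_pow, ← pow_mul]
      have h5 : BR ^ (2 * e) * m ^ (2 * e * (e + 1)) ≤ |(k : ℝ)| ^ (2 * e) := by
        calc BR ^ (2 * e) * m ^ (2 * e * (e + 1)) = (BR * m ^ (e + 1)) ^ (2 * e) := by
              rw [mul_pow, ← pow_mul]
              congr 2
              ring
          _ ≤ _ := by gcongr
      have h6 : |(x : ℝ)| ^ (e + 1) ≤ A₃ * |(k : ℝ)| ^ (2 * e) := by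
        rw [hA₃]
        have h7 : Bp ^ (e + 1) * m ^ (2 * e * (e + 1)) = Bp ^ (e + 1) / BR ^ (2 * e) * (BR ^ (2 * e) * m ^ (2 * e * (e + 1))) := by
          field_simp
        rw [h7] at h4
        refine h4.trans ?_
        gcongr
      refine h6.trans ?_
      gcongr
      linarith
    · -- a different constant
      have h1 : 1 / (D₂ : ℝ) ≤ |(q : ℝ) - v| := by
        obtain ⟨z, hz⟩ := hden₂ n
        have hz' : (D₂ : ℝ) * v = z := by rw [hv]; exact_mod_cast hz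
        have h2 : (D₂ : ℝ) * ((q : ℝ) - v) = ((D₂ * q - z : ℤ) : ℝ) := by
          push_cast; linarith
        have h3 : ((D₂ : ℤ) * q - z) ≠ 0 := by
          intro h4
          apply hqv
          rw [h4, Int.cast_zero] at h2
          have := (mul_eq_zero.1 h2).resolve_left (by positivity)
          linarith
        have h4 : (1 : ℝ) ≤ (D₂ : ℝ) * |(q : ℝ) - v| := by
          rw [← abs_of_pos (by positivity : (0 : ℝ) < D₂), ← abs_mul, h2]
          exact_mod_cast Int.one_le_abs h3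
        rw [div_le_iff₀ (by positivity)]
        linarith
      have h2 : (k : ℝ) = r + 2 * γ * (q - v) + q ^ 2 := by rw [hkr, hxP, hk0']
      have h3 : 2 * |γ| * |(q : ℝ) - v| ≤ |(k : ℝ)| + |r| + q ^ 2 := by
        have h4 : 2 * γ * (q - v) = k + -r + -(q : ℝ) ^ 2 := by linarith
        have h5 : |2 * γ * (q - v)| = 2 * |γ| * |(q : ℝ) - v| := by
          rw [abs_mul, abs_mul, abs_of_pos (by norm_num : (0 : ℝ) < 2)]
        rw [← h5, h4]
        refine (abs_add_three _ _ _).trans ?_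
        rw [abs_neg, abs_neg, abs_of_nonneg (sq_nonneg (q : ℝ))]
      have h4 : 2 * (Bg' / D₂) * m ^ (3 * e) ≤ 2 * |γ| * |(q : ℝ) - v| := by
        calc 2 * (Bg' / D₂) * m ^ (3 * e) = 2 * (Bg' * m ^ (3 * e)) * (1 / D₂) := by ring
          _ ≤ 2 * |γ| * |(q : ℝ) - v| := by gcongr
      have h5 : (|r| + (q : ℝ) ^ 2) * N ≤ (Br + 1) * m ^ (3 * e) := by
        have h6 : m ^ (3 * e - 1) * m = m ^ (3 * e) := by
          rw [← pow_succ]; congr 1; omega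
        have h7 : |r| * N ≤ Br * m ^ (3 * e) := by
          rw [← h6, ← mul_assoc]
          exact mul_le_mul b5 hn (by linarith) (by positivity)
        have h8 := mpow (2 * e) (3 * e) (by omega)
        rw [add_mul, add_mul, one_mul]
        linarith only [h7, h8, hq2]
      have h6 : (|r| + (q : ℝ) ^ 2) ≤ Bg' / D₂ * m ^ (3 * e) := by
        have h7 : (Br + 1) ≤ Bg' / D₂ * N := by
          have h8 : (Br + 1) * D₂ / Bg' ≤ N := by rw [hN]; linarith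
          rw [div_le_iff₀ hBg'] at h8
          rw [div_mul_eq_mul_div, le_div_iff₀ (by positivity)]
          linarith
        have h8 : (|r| + (q : ℝ) ^ 2) * N ≤ (Bg' / D₂ * m ^ (3 * e)) * N := by
          refine h5.trans ?_
          have h9 : 0 ≤ m ^ (3 * e) := by positivity
          calc (Br + 1) * m ^ (3 * e) ≤ (Bg' / D₂ * N) * m ^ (3 * e) := mul_le_mul_of_nonneg_right h7 h9
            _ = _ := by ring
        exact le_of_mul_le_mul_right h8 (by linarith)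
      have h7 : Bg' / D₂ * m ^ (3 * e) ≤ |(k : ℝ)| := by linarith
      have h8 : |(x : ℝ)| ≤ A₂ * |(k : ℝ)| := by
        rw [hxP, hA₂]
        have h9 := mpow (2 * e) (3 * e) (by omega)
        calc |P| ≤ Bp * m ^ (2 * e) := b3
          _ ≤ Bp * m ^ (3 * e) := by gcongr
          _ = Bp * D₂ / Bg' * (Bg' / D₂ * m ^ (3 * e)) := by field_simp
          _ ≤ _ := by gcongr
      refine (of_linear e he A₂ _ _ hA₂0.le hk1 (abs_nonneg _) h8).trans ?_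
      gcongr
      linarith
  · -- another abscissa
    obtain ⟨s, hs0, hs⟩ := exists_s (γ + q)
    have h1 : 1 / (D₁ : ℝ) ≤ |(x : ℝ) - P| := by
      obtain ⟨z, hz⟩ := hden₁ n
      have hz' : (D₁ : ℝ) * P = z := by rw [hP]; exact_mod_cast hz
      have h2 : (D₁ : ℝ) * ((x : ℝ) - P) = ((D₁ * x - z : ℤ) : ℝ) := by
        push_cast; linarith
      have h3 : ((D₁ : ℤ) * x - z) ≠ 0 := by
        intro h4
        apply hxP
        rw [h4, Int.cast_zero] at h2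
        have := (mul_eq_zero.1 h2).resolve_left (by positivity)
        linarith
      have h4 : (1 : ℝ) ≤ (D₁ : ℝ) * |(x : ℝ) - P| := by
        rw [← abs_of_pos (by positivity : (0 : ℝ) < D₁), ← abs_mul, h2]
        exact_mod_cast Int.one_le_abs h3
      rw [div_le_iff₀ (by positivity)]
      linarith
    have h2 : |(γ + q) ^ 2 - P ^ 3| * N ≤ S * m ^ (4 * e) := by
      rw [hk0']
      have c1 : |r| * N ≤ Br * m ^ (4 * e) := by
        have h6 : m ^ (3 * e - 1) * m ≤ m ^ (4 * e) := by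
          rw [← pow_succ]; exact mpow _ _ (by omega)
        calc |r| * N ≤ (Br * m ^ (3 * e - 1)) * m := mul_le_mul b5 hn (by linarith) (by positivity)
          _ = Br * (m ^ (3 * e - 1) * m) := by ring
          _ ≤ _ := by gcongr
      have c2 : |γ| * |(q : ℝ)| * N ≤ Bg * m ^ (4 * e) := by
        calc |γ| * |(q : ℝ)| * N = |γ| * (N * |(q : ℝ)|) := by ring
          _ ≤ (Bg * m ^ (3 * e)) * m ^ e := by gcongr
          _ = Bg * m ^ (4 * e) := by rw [mul_assoc, ← pow_add]; congr 2; ring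
      have c3 : |γ| * |v| * N ≤ Bg * Bq * m ^ (4 * e) := by
        have h6 : m ^ (e - 1) * m = m ^ e := by
          rw [← pow_succ]; congr 1; omega
        calc |γ| * |v| * N ≤ (Bg * m ^ (3 * e)) * (Bq * m ^ (e - 1)) * m := by gcongr
          _ = Bg * Bq * (m ^ (3 * e) * (m ^ (e - 1) * m)) := by ring
          _ = Bg * Bq * m ^ (4 * e) := by rw [h6, ← pow_add]; congr 2; ring
      have c4 : (q : ℝ) ^ 2 * N ≤ m ^ (4 * e) := hq2.trans (mpow _ _ (by omega))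
      have h3 : |r + 2 * γ * (q - v) + (q : ℝ) ^ 2| ≤ |r| + 2 * (|γ| * |(q : ℝ)| + |γ| * |v|) + (q : ℝ) ^ 2 := by
        refine (abs_add_three _ _ _).trans ?_
        rw [abs_of_nonneg (sq_nonneg (q : ℝ)), abs_mul, abs_mul, abs_of_pos (by norm_num : (0 : ℝ) < 2)]
        have h4 : |(q : ℝ) - v| ≤ |(q : ℝ)| + |v| := abs_sub _ _
        have h5 := mul_le_mul_of_nonneg_left h4 (abs_nonneg γ)
        rw [mul_add] at h5
        rw [mul_assoc 2 |γ|]
        linarith only [h5]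
      calc |r + 2 * γ * (q - v) + (q : ℝ) ^ 2| * N ≤ (|r| + 2 * (|γ| * |(q : ℝ)| + |γ| * |v|) + (q : ℝ) ^ 2) * N := by
            gcongr
        _ = |r| * N + 2 * (|γ| * |(q : ℝ)| * N + |γ| * |v| * N) + (q : ℝ) ^ 2 * N := by ring
        _ ≤ Br * m ^ (4 * e) + 2 * (Bg * m ^ (4 * e) + Bg * Bq * m ^ (4 * e)) + m ^ (4 * e) := by linarith
        _ = S * m ^ (4 * e) := by rw [hS]; ring
    have h3 : |s - P| ≤ 1 / (2 * D₁) := by
      have h4 := (cube_sub s P).2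
      rw [hs] at h4
      have h5 : Bp' ^ 2 * m ^ (4 * e) ≤ P ^ 2 := by
        rw [← sq_abs P]
        calc Bp' ^ 2 * m ^ (4 * e) = (Bp' * m ^ (2 * e)) ^ 2 := by
              rw [mul_pow, ← pow_mul]; congr 2; ring
          _ ≤ _ := by gcongr
      have h6 : S * (8 * D₁) ≤ N * (3 * Bp' ^ 2) := by
        have h8 : S * (8 * D₁) / (3 * Bp' ^ 2) ≤ N := by rw [hN]; linarith
        rwa [div_le_iff₀ (by positivity)] at h8
      have hm4 : 0 < m ^ (4 * e) := by positivity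
      -- `|s - P| (3/4) Bp'^2 m^(4e) N ≤ S m^(4e)`
      have h7 : |s - P| * (3 / 4 * (Bp' ^ 2 * m ^ (4 * e))) * N ≤ S * m ^ (4 * e) := by
        refine le_trans ?_ h2
        gcongr
        refine le_trans ?_ h4
        gcongr
      have h8 : (|s - P| * (3 / 4 * Bp' ^ 2) * N) * m ^ (4 * e) ≤ S * m ^ (4 * e) := by
        refine le_trans (le_of_eq ?_) h7
        ring
      have h9 := le_of_mul_le_mul_right h8 hm4
      rw [le_div_iff₀ (by positivity)]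
      have h10 : |s - P| * (2 * D₁) * S ≤ 1 * S := by
        have h11 : 0 ≤ |s - P| := abs_nonneg _
        have h12 := mul_le_mul_of_nonneg_left h6 h11
        calc |s - P| * (2 * D₁) * S = (|s - P| * (S * (8 * D₁))) / 4 := by ring
          _ ≤ (|s - P| * (N * (3 * Bp' ^ 2))) / 4 := by gcongr
          _ = |s - P| * (3 / 4 * Bp' ^ 2) * N := by ring
          _ ≤ S := h9
          _ = 1 * S := (one_mul S).symm
      exact le_of_mul_le_mul_right h10 hS0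
    have h4 : 1 / (2 * (D₁ : ℝ)) ≤ |s - x| := by
      have h5 : |(x : ℝ) - P| ≤ |s - x| + |s - P| := by
        have h6 : (x : ℝ) - P = -(s - x) + (s - P) := by ring
        rw [h6]
        refine (abs_add_le _ _).trans ?_
        rw [abs_neg]
      have h6 : 1 / (D₁ : ℝ) = 1 / (2 * D₁) + 1 / (2 * D₁) := by field_simp; ring
      linarith
    have h5 : |(x : ℝ)| ≤ A₁ * |(k : ℝ)| := by
      have h6 := (cube_sub s x).2
      rw [hs, ← hkr] at h6
      have h7 : |(x : ℝ)| ≤ (x : ℝ) ^ 2 := by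
        rcases eq_or_ne x 0 with h | h
        · rw [h]; simp
        · have h8 : 1 ≤ |x| := Int.one_le_abs h
          have h9 : (1 : ℝ) ≤ |(x : ℝ)| := by exact_mod_cast h8
          rw [← sq_abs]
          exact le_self_pow₀ h9 (by norm_num)
      have h8 : 1 / (2 * (D₁ : ℝ)) * (3 / 4 * |(x : ℝ)|) ≤ |(k : ℝ)| := by
        refine le_trans ?_ h6
        gcongr
      have h9 : 1 / (2 * (D₁ : ℝ)) * (3 / 4 * |(x : ℝ)|) = 3 * |(x : ℝ)| / (8 * D₁) := by field_simp; ring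
      rw [h9, div_le_iff₀ (by positivity)] at h8
      rw [hA₁]
      have h10 : 0 ≤ |(k : ℝ)| * (D₁ : ℝ) := by positivity
      linarith only [h8, h10]
    refine (of_linear e he A₁ _ _ hA₁0.le hk1 (abs_nonneg _) h5).trans ?_
    gcongr
    linarith

end T9h23.Dv
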