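import Mathlib

/-! # Large arguments, degree `3` -/

set_option autoImplicit false

namespace T9h23.Dv

open Finset Polynomial

/-- `(1 + u) ^ (2 / 3)` -/
theorem cube_root (u σ : ℝ) (hu : |u| ≤ 1 / 10) (hσ0 : 0 ≤ σ) (hσ : σ ^ 3 = (1 + u) ^ 2) :
    |σ - (1 + 2 / 3 * u)| ≤ u ^ 2 := by
  obtain ⟨hu1, hu2⟩ := abs_le.1 hu
  have hsq : u ^ 2 ≤ 1 / 100 := by nlinarith
  have hsq0 : 0 ≤ u ^ 2 := sq_nonneg u
  rw [abs_le]
  constructor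
  · by_contra hcon
    push Not at hcon
    have h1 : σ < 1 + 2 / 3 * u - u ^ 2 := by linarith
    have h2 : σ ^ 3 < (1 + 2 / 3 * u - u ^ 2) ^ 3 := pow_lt_pow_left₀ h1 hσ0 (by norm_num)
    rw [hσ] at h2
    have h3 : (1 + 2 / 3 * u - u ^ 2) ^ 3 - (1 + u) ^ 2 =
        u ^ 2 * (-(8 / 3) - 4 * u + 3 * u ^ 2 + u * (2 / 3 - u) ^ 3) := by ring
    have h4 : u * (2 / 3 - u) ^ 3 ≤ 1 := by
      have h5 : |u * (2 / 3 - u) ^ 3| ≤ 1 / 10 * 1 ^ 3 := by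
        rw [abs_mul, abs_pow]
        have : |2 / 3 - u| ≤ 1 := by rw [abs_le]; constructor <;> linarith
        gcongr
      have := le_abs_self (u * (2 / 3 - u) ^ 3)
      linarith
    have h5 : -(8 / 3) - 4 * u + 3 * u ^ 2 + u * (2 / 3 - u) ^ 3 ≤ 0 := by linarith
    nlinarith
  · by_contra hcon
    push Not at hcon
    have h1 : 1 + 2 / 3 * u + u ^ 2 < σ := by linarith
    have h0 : 0 ≤ 1 + 2 / 3 * u + u ^ 2 := by linarith
    have h2 : (1 + 2 / 3 * u + u ^ 2) ^ 3 < σ ^ 3 := pow_lt_pow_left₀ h1 h0 (by norm_num)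
    rw [hσ] at h2
    have h3 : (1 + 2 / 3 * u + u ^ 2) ^ 3 - (1 + u) ^ 2 =
        u ^ 2 * (10 / 3 + 4 * u + 3 * u ^ 2 + u * (2 / 3 + u) ^ 3) := by ring
    have h4 : -1 ≤ u * (2 / 3 + u) ^ 3 := by
      have h5 : |u * (2 / 3 + u) ^ 3| ≤ 1 / 10 * 1 ^ 3 := by
        rw [abs_mul, abs_pow]
        have : |2 / 3 + u| ≤ 1 := by rw [abs_le]; constructor <;> linarith
        gcongr
      have := neg_abs_le (u * (2 / 3 + u) ^ 3)
      linarith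
    have h5 : 0 ≤ 10 / 3 + 4 * u + 3 * u ^ 2 + u * (2 / 3 + u) ^ 3 := by linarith
    nlinarith

/-- **The inequality for `27 y = T ^ 3 + W`, `W` small.** -/
theorem core (T W x y : ℤ) (h27 : 27 * y = T ^ 3 + W) (hT : 100 ≤ |T|) (hW : 100 * W ^ 2 ≤ |T| ^ 3)
    (hne : y ^ 2 ≠ x ^ 3) : |x| ≤ 203 * |y ^ 2 - x ^ 3| := by
  obtain ⟨Γ, hΓ⟩ : ∃ Γ : ℤ, Γ = 9 * x - T ^ 2 := ⟨_, rfl⟩
  obtain ⟨k, hk⟩ : ∃ k : ℤ, k = y ^ 2 - x ^ 3 := ⟨_, rfl⟩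
  obtain ⟨z, hz⟩ : ∃ z : ℤ, z = 2 * W - 3 * Γ * T := ⟨_, rfl⟩
  have hk0 : k ≠ 0 := by rw [hk]; exact sub_ne_zero.2 hne
  have hx9 : 9 * x = T ^ 2 + Γ := by rw [hΓ]; ring
  have hid : 729 * k = z * T ^ 3 + W ^ 2 - 3 * Γ ^ 2 * T ^ 2 - Γ ^ 3 := by
    have h1 : 729 * k = (27 * y) ^ 2 - (9 * x) ^ 3 := by rw [hk]; ring
    rw [h1, h27, hx9, hz]
    ring
  rw [← hk]
  have hT2 : 10000 ≤ T ^ 2 := by
    rw [← sq_abs]
    nlinarith
  by_cases hz0 : z = 0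
  · -- the polynomial identity
    rw [hz0, zero_mul, zero_add] at hid
    have h2W : 2 * W = 3 * Γ * T := by rw [hz0] at hz; linarith
    have hid4 : 4 * (729 * k) = -(Γ ^ 2 * (3 * T ^ 2 + 4 * Γ)) := by
      rw [hid]
      have h1 : 4 * W ^ 2 = (3 * Γ * T) ^ 2 := by rw [← h2W]; ring
      linear_combination h1
    have hΓ0 : Γ ≠ 0 := by
      rintro rfl
      apply hk0
      rw [zero_pow (by norm_num), zero_mul, neg_zero] at hid4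
      omega
    have hΓ1 : 1 ≤ Γ ^ 2 := by
      have := Int.one_le_abs hΓ0
      rw [← sq_abs]
      nlinarith
    -- `|Γ| ≤ T ^ 2 / 4`
    have hΓT : 4 * |Γ| ≤ T ^ 2 := by
      have h1 : 4 * W ^ 2 = 9 * Γ ^ 2 * T ^ 2 := by
        have : 4 * W ^ 2 = (2 * W) ^ 2 := by ring
        rw [this, h2W]; ring
      have h2 : |T| ^ 3 = T ^ 2 * |T| := by rw [← sq_abs T]; ring
      have h3 : 225 * Γ ^ 2 * T ^ 2 ≤ |T| * T ^ 2 := by nlinarith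
      have h4 : 225 * Γ ^ 2 ≤ |T| := le_of_mul_le_mul_right h3 (by linarith)
      have h5 : |Γ| ≤ Γ ^ 2 := by
        rw [← sq_abs Γ]
        have := Int.one_le_abs hΓ0
        nlinarith
      have h6 : |T| ≤ T ^ 2 := by rw [← sq_abs T]; nlinarith
      linarith
    obtain ⟨g1, g2⟩ := abs_le.1 (show |4 * Γ| ≤ T ^ 2 by rw [abs_mul]; exact hΓT)
    have h3 : 2 * T ^ 2 ≤ 4 * (729 * |k|) := by
      have h4 : |4 * (729 * k)| = Γ ^ 2 * (3 * T ^ 2 + 4 * Γ) := by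
        rw [hid4, abs_neg, abs_of_nonneg]
        have : 0 ≤ 3 * T ^ 2 + 4 * Γ := by linarith
        positivity
      rw [abs_mul, abs_mul] at h4
      have h5 : |(4 : ℤ)| = 4 := rfl
      have h6 : |(729 : ℤ)| = 729 := rfl
      rw [h5, h6] at h4
      nlinarith
    have h4 : 9 * |x| ≤ T ^ 2 + |Γ| := by
      have h5 : 9 * |x| = |9 * x| := by rw [abs_mul]; rfl
      rw [h5, hx9]
      refine (abs_add_le _ _).trans ?_
      rw [abs_of_nonneg (sq_nonneg T)]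
    have hkk : 0 ≤ |k| := abs_nonneg k
    omega
  · -- a nonzero multiple of `1 / (3 T)`
    have hz1 : 1 ≤ |z| := Int.one_le_abs hz0
    obtain ⟨s', hs'0, hs'⟩ : ∃ s' : ℝ, 0 ≤ s' ∧ s' ^ 3 = (1 + (W : ℝ) / (T : ℝ) ^ 3) ^ 2 := by
      refine ⟨((1 + (W : ℝ) / (T : ℝ) ^ 3) ^ 2) ^ (1 / 3 : ℝ), by positivity, ?_⟩
      rw [← Real.rpow_natCast, ← Real.rpow_mul (by positivity)]
      norm_num
    obtain ⟨t, ht⟩ : ∃ t : ℝ, t = |(T : ℝ)| := ⟨_, rfl⟩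
    have ht100 : 100 ≤ t := by rw [ht]; exact_mod_cast hT
    have ht0 : 0 < t := by linarith
    have hT0 : (T : ℝ) ≠ 0 := by
      intro h
      rw [h, abs_zero] at ht
      linarith
    have ht2 : (T : ℝ) ^ 2 = t ^ 2 := by rw [ht, sq_abs]
    have hW1 : 100 * (W : ℝ) ^ 2 ≤ t ^ 3 := by rw [ht]; exact_mod_cast hW
    obtain ⟨u, hu⟩ : ∃ u : ℝ, u = (W : ℝ) / (T : ℝ) ^ 3 := ⟨_, rfl⟩
    rw [← hu] at hs'
    have hu2 : u ^ 2 * t ^ 6 = (W : ℝ) ^ 2 := by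
      have h1 : t ^ 6 = ((T : ℝ) ^ 3) ^ 2 := by
        have : t ^ 6 = (t ^ 2) ^ 3 := by ring
        rw [this, ← ht2]; ring
      rw [h1, hu, div_pow]
      field_simp
    have hu3 : 100 * (u ^ 2 * t ^ 3) ≤ 1 := by
      have h1 : (100 * (u ^ 2 * t ^ 3)) * t ^ 3 ≤ 1 * t ^ 3 := by
        have : (100 * (u ^ 2 * t ^ 3)) * t ^ 3 = 100 * (u ^ 2 * t ^ 6) := by ring
        rw [this, hu2]
        linarith
      exact le_of_mul_le_mul_right h1 (by positivity)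
    have hu4 : |u| ≤ 1 / 10 := by
      have h1 : u ^ 2 ≤ (1 / 10) ^ 2 := by
        have : 1 ≤ t ^ 3 := one_le_pow₀ (by linarith)
        nlinarith [sq_nonneg u]
      exact abs_le_of_sq_le_sq h1 (by norm_num)
    have hroot := cube_root u s' hu4 hs'0 hs'
    obtain ⟨s, hs⟩ : ∃ s : ℝ, s = t ^ 2 * s' := ⟨_, rfl⟩
    have hs3 : s ^ 3 = ((T : ℝ) ^ 3 + W) ^ 2 := by
      rw [hs, mul_pow, hs']
      have h1 : (t ^ 2) ^ 3 = ((T : ℝ) ^ 3) ^ 2 := by rw [← ht2]; ring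
      rw [h1, ← mul_pow]
      congr 1
      rw [hu]
      field_simp
    obtain ⟨X, hX⟩ : ∃ X : ℝ, X = 9 * (x : ℝ) := ⟨_, rfl⟩
    have hX2 : X = t ^ 2 + (Γ : ℝ) := by
      rw [hX, ← ht2]; exact_mod_cast hx9
    -- distance
    have hd1 : |s - (t ^ 2 + 2 / 3 * (u * t ^ 2))| ≤ u ^ 2 * t ^ 2 := by
      have h1 : s - (t ^ 2 + 2 / 3 * (u * t ^ 2)) = t ^ 2 * (s' - (1 + 2 / 3 * u)) := by rw [hs]; ring
      rw [h1, abs_mul, abs_of_pos (by positivity : (0 : ℝ) < t ^ 2), mul_comm]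
      gcongr
    have hd2 : 1 / (3 * t) ≤ |X - (t ^ 2 + 2 / 3 * (u * t ^ 2))| := by
      have h1 : X - (t ^ 2 + 2 / 3 * (u * t ^ 2)) = -((z : ℝ) / (3 * T)) := by
        rw [hX2, hz, hu, ← ht2]
        push_cast
        field_simp
        ring
      rw [h1, abs_neg, abs_div, abs_mul, ← ht, abs_of_pos (by norm_num : (0 : ℝ) < 3)]
      have : (1 : ℝ) ≤ |(z : ℝ)| := by exact_mod_cast hz1
      gcongr
    have hd3 : 1 / (6 * t) ≤ |s - X| := by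
      have h1 : |X - (t ^ 2 + 2 / 3 * (u * t ^ 2))| ≤ |s - X| + |s - (t ^ 2 + 2 / 3 * (u * t ^ 2))| := by
        have h2 : X - (t ^ 2 + 2 / 3 * (u * t ^ 2)) = -(s - X) + (s - (t ^ 2 + 2 / 3 * (u * t ^ 2))) := by ring
        rw [h2]
        refine (abs_add_le _ _).trans ?_
        rw [abs_neg]
      have h2 : u ^ 2 * t ^ 2 ≤ 1 / (6 * t) := by
        rw [le_div_iff₀ (by positivity)]
        have : u ^ 2 * t ^ 2 * (6 * t) = 6 * (u ^ 2 * t ^ 3) := by ring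
        rw [this]
        nlinarith [sq_nonneg u, (by positivity : 0 ≤ u ^ 2 * t ^ 3)]
      have h3 : 1 / (3 * t) = 1 / (6 * t) + 1 / (6 * t) := by field_simp; ring
      linarith
    have hs2 : t ^ 2 / 2 ≤ s := by
      have h1 : 1 / 2 ≤ s' := by
        have h2 := (abs_le.1 hroot).1
        have h3 := (abs_le.1 hu4).1
        nlinarith
      rw [hs]
      nlinarith [(by positivity : 0 < t ^ 2)]
    have hs0 : 0 < s := lt_of_lt_of_le (by positivity) hs2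
    have hk3 : 729 * |(k : ℝ)| = |s ^ 3 - X ^ 3| := by
      have h1 : 729 * (k : ℝ) = s ^ 3 - X ^ 3 := by
        rw [hs3, hX, hk]
        push_cast
        have h2 : (27 : ℝ) * y = (T : ℝ) ^ 3 + W := by exact_mod_cast h27
        rw [← h2]
        ring
      rw [← h1, abs_mul, abs_of_pos (by norm_num : (0 : ℝ) < 729)]
    have hfac : s ^ 3 - X ^ 3 = (s - X) * (s ^ 2 + s * X + X ^ 2) := by ring
    have hq1 : 3 / 4 * s ^ 2 ≤ s ^ 2 + s * X + X ^ 2 := by nlinarith [sq_nonneg (s / 2 + X)]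
    have hq2 : 3 / 4 * X ^ 2 ≤ s ^ 2 + s * X + X ^ 2 := by nlinarith [sq_nonneg (s + X / 2)]
    have hq0 : 0 ≤ s ^ 2 + s * X + X ^ 2 := le_trans (by positivity) hq1
    rw [hfac, abs_mul, abs_of_nonneg hq0] at hk3
    have hXx : |X| = 9 * |(x : ℝ)| := by rw [hX, abs_mul, abs_of_pos (by norm_num : (0 : ℝ) < 9)]
    have key : |(x : ℝ)| ≤ 203 * |(k : ℝ)| := by
      by_cases hc : |X| ≤ 2 * s
      · have h1 : 1 / (6 * t) * (3 / 4 * s ^ 2) ≤ 729 * |(k : ℝ)| := by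
          rw [hk3]; gcongr
        have h2 : t / 16 * s ≤ 1 / (6 * t) * (3 / 4 * s ^ 2) := by
          have h3 : 1 / (6 * t) * (3 / 4 * s ^ 2) = (s / t) * s / 8 := by field_simp; ring
          rw [h3]
          have h4 : t / 2 ≤ s / t := by
            rw [le_div_iff₀ ht0]
            nlinarith
          nlinarith
        nlinarith
      · push Not at hc
        have h1 : |X| / 2 ≤ |s - X| := by
          have h2 := abs_sub_abs_le_abs_sub X s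
          rw [abs_sub_comm X s, abs_of_pos hs0] at h2
          linarith
        have h2 : |X| / 2 * (3 / 4 * X ^ 2) ≤ 729 * |(k : ℝ)| := by
          rw [hk3]; gcongr
        have hx1 : 1 ≤ |(x : ℝ)| := by
          have hx0 : x ≠ 0 := by
            rintro rfl
            rw [hX] at hc
            simp at hc
            linarith
          exact_mod_cast Int.one_le_abs hx0
        have h3 : X ^ 2 = 81 * |(x : ℝ)| ^ 2 := by rw [← sq_abs X, hXx]; ring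
        rw [h3, hXx] at h2
        have h4 : |(x : ℝ)| ≤ |(x : ℝ)| ^ 3 := le_self_pow₀ hx1 (by norm_num)
        nlinarith
    exact_mod_cast key

/-- **Large arguments.** -/
theorem large3 (G : ℤ[X]) (hG : G.Monic) (hGd : G.natDegree = 3) :
    ∃ N : ℝ, 1 ≤ N ∧ ∀ n q x : ℤ, N ≤ |(n : ℝ)| → N * |(q : ℝ)| ^ 2 ≤ |(n : ℝ)| ^ 3 →
      (G.eval n + q) ^ 2 ≠ x ^ 3 → |x| ≤ 203 * |(G.eval n + q) ^ 2 - x ^ 3| := by
  obtain ⟨a₂, h2⟩ : ∃ a₂, a₂ = G.coeff 2 := ⟨_, rfl⟩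
  obtain ⟨a₁, h1⟩ : ∃ a₁, a₁ = G.coeff 1 := ⟨_, rfl⟩
  obtain ⟨a₀, h0⟩ : ∃ a₀, a₀ = G.coeff 0 := ⟨_, rfl⟩
  have hev : ∀ n : ℤ, G.eval n = n ^ 3 + a₂ * n ^ 2 + a₁ * n + a₀ := by
    intro n
    have h3 : G.coeff 3 = 1 := by rw [← hGd]; exact hG
    rw [eval_eq_sum_range, hGd]
    simp only [Finset.sum_range_succ, Finset.sum_range_zero]
    rw [h3, h2, h1, h0]
    ring
  obtain ⟨A, hA⟩ : ∃ A : ℤ, A = 9 * a₁ - 3 * a₂ ^ 2 := ⟨_, rfl⟩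
  obtain ⟨B, hB⟩ : ∃ B : ℤ, B = 2 * a₂ ^ 3 - 9 * a₁ * a₂ + 27 * a₀ := ⟨_, rfl⟩
  obtain ⟨N, hN⟩ : ∃ N : ℝ, N = 100 * (2 * (A : ℝ) ^ 2 + 2916 + 4 * (B : ℝ) ^ 2) + |(a₂ : ℝ)| := ⟨_, rfl⟩
  have hN1 : 100 * (2 * (A : ℝ) ^ 2 + 2916 + 4 * (B : ℝ) ^ 2) ≤ N := by
    rw [hN]; linarith [abs_nonneg (a₂ : ℝ)]
  have hN2 : |(a₂ : ℝ)| ≤ N := by
    rw [hN]
    have : 0 ≤ 100 * (2 * (A : ℝ) ^ 2 + 2916 + 4 * (B : ℝ) ^ 2) := by positivity
    linarith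
  have hN3 : 100 ≤ N := by nlinarith [sq_nonneg (A : ℝ), sq_nonneg (B : ℝ)]
  refine ⟨N, by linarith, ?_⟩
  intro n q x hn hq hne
  obtain ⟨m, hm⟩ : ∃ m : ℝ, m = |(n : ℝ)| := ⟨_, rfl⟩
  rw [← hm] at hn hq
  have hm0 : 0 < m := by linarith
  obtain ⟨T, hT⟩ : ∃ T : ℤ, T = 3 * n + a₂ := ⟨_, rfl⟩
  obtain ⟨t, ht⟩ : ∃ t : ℝ, t = |(T : ℝ)| := ⟨_, rfl⟩
  have htm : m ≤ t := by
    have h3 : 3 * m ≤ t + |(a₂ : ℝ)| := by
      have h4 : (3 : ℝ) * n = T + -(a₂ : ℝ) := by rw [hT]; push_cast; ring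
      have h5 : 3 * m = |(3 : ℝ) * n| := by rw [abs_mul, hm, abs_of_pos (by norm_num : (0 : ℝ) < 3)]
      rw [h5, h4, ht]
      refine (abs_add_le _ _).trans ?_
      rw [abs_neg]
    linarith
  have ht0 : 0 < t := by linarith
  obtain ⟨W, hW⟩ : ∃ W : ℤ, W = A * T + (B + 27 * q) := ⟨_, rfl⟩
  refine core T W x (G.eval n + q) ?_ ?_ ?_ hne
  · rw [hev, hW, hA, hB, hT]
    ring
  · have : (100 : ℝ) ≤ |(T : ℝ)| := by rw [← ht]; linarith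
    exact_mod_cast this
  · have h3 : 100 * (W : ℝ) ^ 2 ≤ t ^ 3 := by
      have h4 : (W : ℝ) ^ 2 ≤ 2 * (A : ℝ) ^ 2 * t ^ 2 + 2916 * |(q : ℝ)| ^ 2 + 4 * (B : ℝ) ^ 2 := by
        have h5 : (W : ℝ) = A * T + (B + 27 * q) := by rw [hW]; push_cast; ring
        rw [h5, sq_abs, ht, sq_abs]
        nlinarith [sq_nonneg ((A : ℝ) * T - (B + 27 * q)), sq_nonneg ((B : ℝ) - 27 * q)]
      have h5 : t ^ 2 * N ≤ t ^ 3 := by
        have : t ^ 3 = t ^ 2 * t := by ring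
        rw [this]
        gcongr
        linarith
      have h6 : |(q : ℝ)| ^ 2 * N ≤ t ^ 3 := by
        have h7 : m ^ 3 ≤ t ^ 3 := by gcongr
        linarith
      have h7 : N ≤ t ^ 3 := by
        have h8 : t ≤ t ^ 3 := le_self_pow₀ (by linarith) (by norm_num)
        linarith
      have h8 : (W : ℝ) ^ 2 * N ≤ (2 * (A : ℝ) ^ 2 + 2916 + 4 * (B : ℝ) ^ 2) * t ^ 3 := by
        calc (W : ℝ) ^ 2 * N ≤ (2 * (A : ℝ) ^ 2 * t ^ 2 + 2916 * |(q : ℝ)| ^ 2 + 4 * (B : ℝ) ^ 2) * N := by gcongr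
          _ = 2 * (A : ℝ) ^ 2 * (t ^ 2 * N) + 2916 * (|(q : ℝ)| ^ 2 * N) + 4 * (B : ℝ) ^ 2 * N := by ring
          _ ≤ 2 * (A : ℝ) ^ 2 * t ^ 3 + 2916 * t ^ 3 + 4 * (B : ℝ) ^ 2 * t ^ 3 := by gcongr
          _ = _ := by ring
      have h9 : 100 * (W : ℝ) ^ 2 * N ≤ t ^ 3 * N := by
        have h10 : 0 ≤ t ^ 3 := by positivity
        nlinarith
      exact le_of_mul_le_mul_right h9 (by linarith)
    rw [ht] at h3
    exact_mod_cast h3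

end T9h23.Dv
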