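import Pool.Agent.T9h23.Pe.O4

/-! # The constant perturbations with an exceptional value at a moderate argument -/

set_option autoImplicit false

namespace T9h23.Dv

open Finset T9h23.Ru T9h23.Pe
open scoped Classical

/-- the constants with an exceptional value `w + q` -/
noncomputable def exq (H : ℕ) (w : ℤ) : Finset ℤ := (Icc (-(H : ℤ)) H).filter (fun q => Bad (w + q))

theorem exq_small (K γ : ℝ)
    (hcount : ∀ Y : ℝ, 1 ≤ Y → ∀ U : Finset ℤ, (∀ y ∈ U, |(y : ℝ)| ≤ Y ∧ Bad y) → (U.card : ℝ) ≤ K * Y ^ γ)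
    (H : ℕ) (w : ℤ) (Y : ℝ) (hY : 1 ≤ Y) (hw : |(w : ℝ)| + H ≤ Y) : ((exq H w).card : ℝ) ≤ K * Y ^ γ := by
  have h2 := hcount Y hY ((exq H w).image (fun v => w + v)) (by
    intro y hy
    rw [mem_image] at hy
    obtain ⟨v, hv, rfl⟩ := hy
    rw [exq, mem_filter, mem_Icc, ← abs_le] at hv
    refine ⟨?_, hv.2⟩
    refine le_trans ?_ hw
    push_cast
    have h3 : |(v : ℝ)| ≤ H := by exact_mod_cast hv.1
    exact (abs_add_le _ _).trans (by linarith))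
  rwa [Finset.card_image_of_injective _ (add_right_injective w)] at h2

/-- **The exceptions at `n`.** -/
theorem mid1 (e : ℕ) (he : 1 ≤ e) (g : Fin (3 * e) → ℤ) (K γ : ℝ) (hK : 1 ≤ K) (hγ : 5 / 9 ≤ γ)
    (hcount : ∀ Y : ℝ, 1 ≤ Y → ∀ U : Finset ℤ, (∀ y ∈ U, |(y : ℝ)| ≤ Y ∧ Bad y) → (U.card : ℝ) ≤ K * Y ^ γ) :
    ∃ C : ℝ, 0 < C ∧ ∀ H : ℕ, 1 ≤ H → ∀ n : ℤ, n ≠ 0 →
      ((exq H (mv g n)).card : ℝ) ≤ C * ((H : ℝ) ^ (γ + 1 / (3 * e)) / |(n : ℝ)| + 1) := by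
  have he1 : (1 : ℝ) ≤ e := by exact_mod_cast he
  set G : ℝ := (gs g : ℝ) with hG
  have hG1 : 1 ≤ G := by rw [hG]; exact_mod_cast gs_pos g
  set L : ℝ := 2000 + (2 * G) ^ (3 * e) with hL
  have hL1 : 2000 ≤ L := by
    rw [hL]
    have : 0 ≤ (2 * G) ^ (3 * e) := by positivity
    linarith
  set C₂ : ℝ := G * L + 1 with hC₂
  have hC₂1 : 1 ≤ C₂ := by rw [hC₂]; nlinarith
  set κ : ℝ := γ + 1 / (3 * e) with hκ
  set CA : ℝ := K * C₂ ^ γ * L ^ (1 / (3 * e : ℝ)) with hCA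
  have hCA0 : 0 < CA := by positivity
  refine ⟨CA + 40, by positivity, ?_⟩
  intro H hH n hn
  have hHr : (1 : ℝ) ≤ H := by exact_mod_cast hH
  have hH0 : (0 : ℝ) < H := by linarith
  have hn1 : (1 : ℝ) ≤ |(n : ℝ)| := by
    have : 1 ≤ |n| := Int.one_le_abs hn
    exact_mod_cast this
  obtain ⟨m, hm⟩ : ∃ m : ℝ, m = |(n : ℝ)| := ⟨_, rfl⟩
  rw [← hm] at hn1 ⊢
  have hm0 : 0 < m := by linarith
  have hκm : 0 ≤ (H : ℝ) ^ κ / m := by positivity
  rcases le_total (m ^ (3 * e)) (L * H) with hc | hc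
  · -- small arguments
    have hw : |(mv g n : ℝ)| ≤ G * m ^ (3 * e) := by
      rw [hm, hG]; exact_mod_cast mv_upper g n hn
    have hY : |(mv g n : ℝ)| + H ≤ C₂ * H := by
      have h1 : G * m ^ (3 * e) ≤ G * (L * H) := by gcongr
      rw [hC₂]
      nlinarith
    have hY1 : 1 ≤ C₂ * H := by nlinarith
    have h1 := exq_small K γ hcount H (mv g n) _ hY1 hY
    have h3 : m ≤ L ^ (1 / (3 * e : ℝ)) * (H : ℝ) ^ (1 / (3 * e : ℝ)) := by
      rw [← Real.mul_rpow (by linarith) hH0.le]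
      have h4 : m = (m ^ (3 * e)) ^ (1 / (3 * e : ℝ)) := by
        rw [← Real.rpow_natCast m, ← Real.rpow_mul hm0.le]
        push_cast
        rw [mul_one_div_cancel (by positivity), Real.rpow_one]
      nth_rewrite 1 [h4]
      exact Real.rpow_le_rpow (by positivity) hc (by positivity)
    have h4 : K * (C₂ * H) ^ γ ≤ CA * ((H : ℝ) ^ κ / m) := by
      rw [Real.mul_rpow (by linarith) hH0.le, ← mul_div_assoc, le_div_iff₀ hm0]
      calc K * (C₂ ^ γ * (H : ℝ) ^ γ) * m ≤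
            K * (C₂ ^ γ * (H : ℝ) ^ γ) * (L ^ (1 / (3 * e : ℝ)) * (H : ℝ) ^ (1 / (3 * e : ℝ))) := by gcongr
        _ = CA * ((H : ℝ) ^ γ * (H : ℝ) ^ (1 / (3 * e : ℝ))) := by rw [hCA]; ring
        _ = _ := by rw [← Real.rpow_add hH0]
    nlinarith
  · -- larger arguments
    have hGL : (2 * G) ^ (3 * e) ≤ m ^ (3 * e) := by
      refine le_trans ?_ hc
      have : (2 * G) ^ (3 * e) ≤ L := by rw [hL]; linarith
      nlinarith
    have hmG : 2 * G ≤ m := by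
      by_contra hcon
      push Not at hcon
      have := pow_lt_pow_left₀ hcon hm0.le (by omega : 3 * e ≠ 0)
      linarith
    have hlow : m ^ (3 * e) ≤ 2 * |(mv g n : ℝ)| := by
      have h1 : 2 * gs g ≤ |n| := by
        have : 2 * (gs g : ℝ) ≤ |(n : ℝ)| := by rw [← hm]; exact hmG
        exact_mod_cast this
      rw [hm]
      exact_mod_cast mv_lower (by omega) g n h1
    have hbig : 2000 * H ≤ m ^ (3 * e) := le_trans (by gcongr) hc
    have hw1 : 1000 ≤ |mv g n| := by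
      have : (1000 : ℝ) ≤ |(mv g n : ℝ)| := by nlinarith
      exact_mod_cast this
    have hw2 : 66 * (H : ℤ) ≤ |mv g n| := by
      have h1 : 66 * (H : ℝ) ≤ |(mv g n : ℝ)| := by nlinarith
      exact_mod_cast h1
    have h1 := winE (mv g n) H hw1 hH hw2
    have h2 : |(mv g n : ℝ)| ^ (-(4 / 9) : ℝ) ≤ 2 * m ^ (-(4 * (e : ℝ) / 3)) := by
      have h3 : m ^ (3 * e) / 2 ≤ |(mv g n : ℝ)| := by linarith
      have h4 : |(mv g n : ℝ)| ^ (-(4 / 9) : ℝ) ≤ (m ^ (3 * e) / 2) ^ (-(4 / 9) : ℝ) :=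
        Real.rpow_le_rpow_of_nonpos (by positivity) h3 (by norm_num)
      refine h4.trans ?_
      rw [Real.div_rpow (by positivity) (by norm_num), ← Real.rpow_natCast m, ← Real.rpow_mul hm0.le]
      have h5 : ((3 * e : ℕ) : ℝ) * -(4 / 9) = -(4 * (e : ℝ) / 3) := by push_cast; ring
      rw [h5, Real.rpow_neg (by norm_num : (0 : ℝ) ≤ 2), div_inv_eq_mul, mul_comm]
      have h6 : (2 : ℝ) ^ (4 / 9 : ℝ) ≤ 2 := by
        calc (2 : ℝ) ^ (4 / 9 : ℝ) ≤ (2 : ℝ) ^ (1 : ℝ) :=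
              Real.rpow_le_rpow_of_exponent_le (by norm_num) (by norm_num)
          _ = 2 := Real.rpow_one _
      gcongr
    have h3 : (H : ℝ) * m ^ (-(4 * (e : ℝ) / 3)) ≤ (H : ℝ) ^ κ / m := by
      rw [le_div_iff₀ hm0]
      have h4 : m ^ (-(4 * (e : ℝ) / 3)) * m = m ^ (1 - 4 * (e : ℝ) / 3) := by
        nth_rewrite 2 [← Real.rpow_one m]
        rw [← Real.rpow_add hm0]
        congr 1
        ring
      have h5 : m ^ (1 - 4 * (e : ℝ) / 3) ≤ (H : ℝ) ^ ((1 - 4 * (e : ℝ) / 3) / (3 * e)) := by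
        have h9 : m ^ (1 - 4 * (e : ℝ) / 3) = (m ^ (3 * e)) ^ ((1 - 4 * (e : ℝ) / 3) / (3 * e)) := by
          rw [← Real.rpow_natCast m, ← Real.rpow_mul hm0.le]
          congr 1
          push_cast
          rw [mul_div_assoc', mul_div_cancel_left₀ _ (by positivity)]
        rw [h9]
        refine Real.rpow_le_rpow_of_nonpos hH0 (by linarith) ?_
        apply div_nonpos_of_nonpos_of_nonneg _ (by positivity)
        linarith
      rw [mul_assoc, h4]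
      calc (H : ℝ) * m ^ (1 - 4 * (e : ℝ) / 3) ≤ H * (H : ℝ) ^ ((1 - 4 * (e : ℝ) / 3) / (3 * e)) := by gcongr
        _ = (H : ℝ) ^ (1 + (1 - 4 * (e : ℝ) / 3) / (3 * e)) := by rw [Real.rpow_add hH0, Real.rpow_one]
        _ ≤ (H : ℝ) ^ κ := by
            apply Real.rpow_le_rpow_of_exponent_le hHr
            have h10 : 1 + (1 - 4 * (e : ℝ) / 3) / (3 * e) = 5 / 9 + 1 / (3 * e) := by
              have : (e : ℝ) ≠ 0 := by positivity
              field_simp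
              ring
            rw [h10, hκ]
            linarith
    have h4 : (H : ℝ) * |(mv g n : ℝ)| ^ (-(4 / 9) : ℝ) ≤ 2 * ((H : ℝ) ^ κ / m) := by
      calc (H : ℝ) * |(mv g n : ℝ)| ^ (-(4 / 9) : ℝ) ≤ H * (2 * m ^ (-(4 * (e : ℝ) / 3))) := by gcongr
        _ = 2 * (H * m ^ (-(4 * (e : ℝ) / 3))) := by ring
        _ ≤ _ := by gcongr
    have h5 : ((exq H (mv g n)).card : ℝ) ≤ 20 * ((H : ℝ) * |(mv g n : ℝ)| ^ (-(4 / 9) : ℝ) + 1) := h1
    nlinarith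

/-- the constants with an exceptional value at an argument up to `N` -/
noncomputable def exqs {d : ℕ} (g : Fin d → ℤ) (H : ℕ) (N : ℝ) : Finset ℤ :=
  (Icc (-(H : ℤ)) H).filter (fun q => ∃ n : ℤ, |(n : ℝ)| ≤ N ∧ Bad (mv g n + q))

/-- the exponent -/
noncomputable def tq (e : ℕ) : ℝ := 5 / 9 + 1 / (3 * e)

/-- **All moderate arguments.** -/
theorem total1 (e : ℕ) (he : 1 ≤ e) (g : Fin (3 * e) → ℤ) (C₁ : ℝ) (hC₁ : 1 ≤ C₁) (ε : ℝ) (hε : 0 < ε) :
    ∃ C : ℝ, 0 < C ∧ ∀ H : ℕ, 1 ≤ H →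
      ((exqs g H (C₁ * (H : ℝ) ^ (tq e))).card : ℝ) ≤ C * (H : ℝ) ^ (tq e + ε) := by
  have he1 : (1 : ℝ) ≤ e := by exact_mod_cast he
  set γ : ℝ := 5 / 9 + ε / 2 with hγ
  obtain ⟨K, hK, hcount⟩ := countE γ (by rw [hγ]; linarith)
  obtain ⟨C, hC, hmid⟩ := mid1 e he g K γ hK (by rw [hγ]; linarith) hcount
  have hte : γ + 1 / (3 * (e : ℝ)) = tq e + ε / 2 := by rw [hγ, tq]; ring
  rw [hte] at hmid
  have h3e : 0 ≤ 1 / (3 * (e : ℝ)) := by positivity
  have h3e1 : 1 / (3 * (e : ℝ)) ≤ 1 / 3 := by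
    apply one_div_le_one_div_of_le (by norm_num)
    linarith
  have htq0 : 5 / 9 ≤ tq e := by rw [tq]; linarith
  have htq1 : tq e ≤ 1 := by rw [tq]; linarith
  set G : ℝ := |(mv g 0 : ℝ)| + 1 with hG
  have hG1 : 1 ≤ G := by rw [hG]; linarith [abs_nonneg (mv g 0 : ℝ)]
  set D0 : ℝ := K * G ^ γ with hD0
  have hD00 : 0 ≤ D0 := by positivity
  have hlC : 0 ≤ Real.log C₁ := Real.log_nonneg hC₁
  set D1 : ℝ := 1 + Real.log C₁ + 2 / ε with hD1
  have hD10 : 0 < D1 := by positivity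
  refine ⟨D0 + 2 * C * D1 + 2 * C * C₁, by positivity, ?_⟩
  intro H hH
  have hHr : (1 : ℝ) ≤ H := by exact_mod_cast hH
  have hH0 : (0 : ℝ) < H := by linarith
  set N : ℝ := C₁ * (H : ℝ) ^ (tq e) with hN
  have hN1 : 1 ≤ N := by
    have : 1 ≤ (H : ℝ) ^ (tq e) := Real.one_le_rpow hHr (by linarith)
    rw [hN]; nlinarith
  set M : ℕ := ⌊N⌋₊ with hM
  have hMN : (M : ℝ) ≤ N := Nat.floor_le (by linarith)
  have hM1 : 1 ≤ M := by
    rw [hM]; exact Nat.le_floor (by exact_mod_cast hN1)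
  have hsub : exqs g H N ⊆ exq H (mv g 0) ∪ (Icc 1 M).biUnion (fun m : ℕ =>
      exq H (mv g (m : ℤ)) ∪ exq H (mv g (-(m : ℤ)))) := by
    intro q hq
    rw [exqs, mem_filter] at hq
    obtain ⟨hq1, n, hn, hb⟩ := hq
    rw [mem_union]
    by_cases hn0 : n = 0
    · left
      subst hn0
      rw [exq, mem_filter]
      exact ⟨hq1, hb⟩
    · right
      rw [mem_biUnion]
      refine ⟨n.natAbs, ?_, ?_⟩
      · rw [mem_Icc]
        refine ⟨Int.natAbs_pos.2 hn0, ?_⟩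
        rw [hM]
        apply Nat.le_floor
        rw [Nat.cast_natAbs, Int.cast_abs]
        exact hn
      · rw [mem_union]
        rcases Int.natAbs_eq n with h | h
        · left
          rw [← h, exq, mem_filter]
          exact ⟨hq1, hb⟩
        · right
          have h2 : -(n.natAbs : ℤ) = n := h.symm
          rw [h2, exq, mem_filter]
          exact ⟨hq1, hb⟩
  have hcard : ((exqs g H N).card : ℝ) ≤ ((exq H (mv g 0)).card : ℝ) + ∑ m ∈ Icc 1 M,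
      (((exq H (mv g (m : ℤ))).card : ℝ) + ((exq H (mv g (-(m : ℤ)))).card : ℝ)) := by
    have h1 := (Finset.card_le_card hsub).trans (Finset.card_union_le _ _)
    have h2 : ((Icc 1 M).biUnion (fun m : ℕ => exq H (mv g (m : ℤ)) ∪ exq H (mv g (-(m : ℤ))))).card ≤
        ∑ m ∈ Icc 1 M, ((exq H (mv g (m : ℤ))).card + (exq H (mv g (-(m : ℤ)))).card) := by
      refine Finset.card_biUnion_le.trans (Finset.sum_le_sum fun m _ => Finset.card_union_le _ _)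
    exact_mod_cast h1.trans (Nat.add_le_add_left h2 _)
  have hz : ((exq H (mv g 0)).card : ℝ) ≤ D0 * (H : ℝ) ^ γ := by
    have h1 : |(mv g 0 : ℝ)| + H ≤ G * H := by
      rw [hG]
      have := abs_nonneg (mv g 0 : ℝ)
      nlinarith
    have h2 := exq_small K γ hcount H (mv g 0) (G * H) (by nlinarith) h1
    refine h2.trans ?_
    rw [Real.mul_rpow (by linarith) hH0.le, hD0]
    linarith
  have hper : ∀ m ∈ Icc 1 M, (((exq H (mv g (m : ℤ))).card : ℝ) + ((exq H (mv g (-(m : ℤ)))).card : ℝ)) ≤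
      2 * C * (H : ℝ) ^ (tq e + ε / 2) * (1 / m) + 2 * C := by
    intro m hm
    rw [mem_Icc] at hm
    have hm0 : (m : ℤ) ≠ 0 := by omega
    have h1 := hmid H hH (m : ℤ) hm0
    have h2 := hmid H hH (-(m : ℤ)) (neg_ne_zero.2 hm0)
    rw [Int.cast_natCast, abs_of_nonneg (Nat.cast_nonneg m)] at h1
    rw [Int.cast_neg, Int.cast_natCast, abs_neg, abs_of_nonneg (Nat.cast_nonneg m)] at h2
    have h3 : 2 * C * (H : ℝ) ^ (tq e + ε / 2) * (1 / m) + 2 * C =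
        C * ((H : ℝ) ^ (tq e + ε / 2) / m + 1) + C * ((H : ℝ) ^ (tq e + ε / 2) / m + 1) := by ring
    rw [h3]
    exact add_le_add h1 h2
  have hsum : ∑ m ∈ Icc 1 M, (((exq H (mv g (m : ℤ))).card : ℝ) + ((exq H (mv g (-(m : ℤ)))).card : ℝ)) ≤
      2 * C * (H : ℝ) ^ (tq e + ε / 2) * (1 + Real.log M) + 2 * C * M := by
    refine (Finset.sum_le_sum hper).trans ?_
    rw [Finset.sum_add_distrib, ← Finset.mul_sum, Finset.sum_const, Nat.card_Icc, nsmul_eq_mul]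
    have h1 : ((M + 1 - 1 : ℕ) : ℝ) = M := by simp
    rw [h1]
    have h2 := sum_inv M
    have h3 : 2 * C * (H : ℝ) ^ (tq e + ε / 2) * ∑ m ∈ Icc 1 M, (1 : ℝ) / m ≤
        2 * C * (H : ℝ) ^ (tq e + ε / 2) * (1 + Real.log M) := by
      gcongr
    linarith
  have hlog : 1 + Real.log M ≤ D1 * (H : ℝ) ^ (ε / 2) := by
    have h1 : Real.log M ≤ Real.log N := Real.log_le_log (by exact_mod_cast hM1) hMN
    have h2 : Real.log N = Real.log C₁ + tq e * Real.log H := by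
      rw [hN, Real.log_mul (by linarith) (by positivity), Real.log_rpow hH0]
    have h3 := Real.log_le_rpow_div hH0.le (by linarith : 0 < ε / 2)
    have h4 : 1 ≤ (H : ℝ) ^ (ε / 2) := Real.one_le_rpow hHr (by linarith)
    have h5 : (H : ℝ) ^ (ε / 2) / (ε / 2) = 2 / ε * (H : ℝ) ^ (ε / 2) := by field_simp
    rw [h5] at h3
    have h6 : (1 + Real.log C₁) * 1 ≤ (1 + Real.log C₁) * (H : ℝ) ^ (ε / 2) := by gcongr
    have h7 : tq e * Real.log H ≤ 1 * Real.log H :=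
      mul_le_mul_of_nonneg_right htq1 (Real.log_nonneg hHr)
    rw [hD1]
    nlinarith
  have p1 : (H : ℝ) ^ γ ≤ (H : ℝ) ^ (tq e + ε) := Real.rpow_le_rpow_of_exponent_le hHr (by linarith)
  have p2 : (H : ℝ) ^ (tq e + ε / 2) * (H : ℝ) ^ (ε / 2) = (H : ℝ) ^ (tq e + ε) := by
    rw [← Real.rpow_add hH0]
    congr 1
    ring
  have p3 : (H : ℝ) ^ (tq e) ≤ (H : ℝ) ^ (tq e + ε) := Real.rpow_le_rpow_of_exponent_le hHr (by linarith)
  calc ((exqs g H N).card : ℝ) ≤ D0 * (H : ℝ) ^ γ +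
        (2 * C * (H : ℝ) ^ (tq e + ε / 2) * (1 + Real.log M) + 2 * C * M) := hcard.trans (add_le_add hz hsum)
    _ ≤ D0 * (H : ℝ) ^ γ + (2 * C * (H : ℝ) ^ (tq e + ε / 2) * (D1 * (H : ℝ) ^ (ε / 2)) +
          2 * C * (C₁ * (H : ℝ) ^ (tq e))) := by gcongr
    _ = D0 * (H : ℝ) ^ γ + (2 * C * D1 * ((H : ℝ) ^ (tq e + ε / 2) * (H : ℝ) ^ (ε / 2)) +
          2 * C * C₁ * (H : ℝ) ^ (tq e)) := by ring
    _ ≤ D0 * (H : ℝ) ^ (tq e + ε) + (2 * C * D1 * (H : ℝ) ^ (tq e + ε) + 2 * C * C₁ * (H : ℝ) ^ (tq e + ε)) := by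
        rw [p2]
        gcongr
    _ = _ := by ring

end T9h23.Dv
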