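import Pool.Agent.T9h23.Dv.V2
import Pool.Agent.T9h23.Dv.V3
import Pool.Agent.T9h23.Dv.V4

/-! # Hall's inequality for almost all constant perturbations -/

set_option autoImplicit false

namespace T9h23.Dv

open Finset Polynomial T9h23.Ru T9h23.Pe
open scoped Classical

/-- the inequality at all values of `G + q` -/
def Good (e : ℕ) (C : ℝ) (G : ℤ[X]) (q : ℤ) : Prop := ∀ n x : ℤ, (G.eval n + q) ^ 2 ≠ x ^ 3 →
  |(x : ℝ)| ^ (e + 1) ≤ C * |(((G.eval n + q) ^ 2 - x ^ 3 : ℤ) : ℝ)| ^ (2 * e)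

theorem mv_coeff (G : ℤ[X]) (hG : G.Monic) (e : ℕ) (he : G.natDegree = 3 * e) (n : ℤ) :
    G.eval n = mv (fun i : Fin (3 * e) => G.coeff i) n := by
  unfold mv
  have h1 : G.coeff (3 * e) = 1 := by rw [← he]; exact hG
  rw [eval_eq_sum_range, he, Finset.sum_range_succ, h1, one_mul, add_comm,
    Fin.sum_univ_eq_sum_range (fun i => G.coeff i * n ^ i)]

/-- large arguments, all degrees -/
theorem largeAll (e : ℕ) (he : 1 ≤ e) (G : ℤ[X]) (hG : G.Monic) (hGd : G.natDegree = 3 * e) :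
    ∃ C C₁ : ℝ, 1 ≤ C ∧ (e = 1 → C = 203 ^ 2) ∧ 1 ≤ C₁ ∧ ∀ H : ℕ, 1 ≤ H → ∀ n q x : ℤ, |q| ≤ H → C₁ * (H : ℝ) ^ (tq e) ≤ |(n : ℝ)| →
      (G.eval n + q) ^ 2 ≠ x ^ 3 →
      |(x : ℝ)| ^ (e + 1) ≤ C * |(((G.eval n + q) ^ 2 - x ^ 3 : ℤ) : ℝ)| ^ (2 * e) := by
  rcases Nat.lt_or_ge e 2 with hcase | hcase
  · have he' : e = 1 := by omega
    subst he'
    obtain ⟨N, hN, h⟩ := large3 G hG hGd
    refine ⟨203 ^ (1 + 1), N, by norm_num, fun _ => by norm_num, hN, ?_⟩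
    intro H hH n q x hq hn hne
    have hHr : (1 : ℝ) ≤ H := by exact_mod_cast hH
    have hH0 : (0 : ℝ) < H := by linarith
    have hqr : |(q : ℝ)| ≤ H := by exact_mod_cast hq
    have h1 : 1 ≤ (H : ℝ) ^ (tq 1) := Real.one_le_rpow hHr (by rw [tq]; positivity)
    have h2 : N ≤ |(n : ℝ)| := le_trans (by nlinarith) hn
    have h3 : N * |(q : ℝ)| ^ 2 ≤ |(n : ℝ)| ^ 3 := by
      have h4 : (N * (H : ℝ) ^ (tq 1)) ^ 3 ≤ |(n : ℝ)| ^ 3 := by gcongr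
      have h5 : (N * (H : ℝ) ^ (tq 1)) ^ 3 = N ^ 3 * (H : ℝ) ^ (8 / 3 : ℝ) := by
        rw [mul_pow, ← Real.rpow_natCast ((H : ℝ) ^ (tq 1)) 3, ← Real.rpow_mul hH0.le, tq]
        norm_num
      have h6 : (H : ℝ) ^ 2 ≤ (H : ℝ) ^ (8 / 3 : ℝ) := by
        rw [← Real.rpow_natCast]
        exact Real.rpow_le_rpow_of_exponent_le hHr (by norm_num)
      have h7 : N ≤ N ^ 3 := le_self_pow₀ hN (by norm_num)
      calc N * |(q : ℝ)| ^ 2 ≤ N ^ 3 * (H : ℝ) ^ 2 := by gcongr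
        _ ≤ N ^ 3 * (H : ℝ) ^ (8 / 3 : ℝ) := by gcongr
        _ = (N * (H : ℝ) ^ (tq 1)) ^ 3 := h5.symm
        _ ≤ _ := h4
    have h8 := h n q x h2 h3 hne
    have hk0 : (G.eval n + q) ^ 2 - x ^ 3 ≠ 0 := sub_ne_zero.2 hne
    have hk1 : (1 : ℝ) ≤ |(((G.eval n + q) ^ 2 - x ^ 3 : ℤ) : ℝ)| := by
      have : 1 ≤ |(G.eval n + q) ^ 2 - x ^ 3| := Int.one_le_abs hk0
      exact_mod_cast this
    have h9 : |(x : ℝ)| ≤ 203 * |(((G.eval n + q) ^ 2 - x ^ 3 : ℤ) : ℝ)| := by exact_mod_cast h8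
    exact of_linear 1 le_rfl 203 _ _ (by norm_num) hk1 (abs_nonneg _) h9
  · obtain ⟨C, N, hC, hN, h⟩ := largeD e he G hG hGd
    refine ⟨C, N, hC, fun h => by omega, hN, ?_⟩
    intro H hH n q x hq hn hne
    have hHr : (1 : ℝ) ≤ H := by exact_mod_cast hH
    have hH0 : (0 : ℝ) < H := by linarith
    have hqr : |(q : ℝ)| ≤ H := by exact_mod_cast hq
    have her : (2 : ℝ) ≤ e := by exact_mod_cast hcase
    have h1 : 1 ≤ (H : ℝ) ^ (tq e) := Real.one_le_rpow hHr (by rw [tq]; positivity)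
    refine h n q x (le_trans (by nlinarith) hn) ?_ hne
    have h4 : (N * (H : ℝ) ^ (tq e)) ^ e ≤ |(n : ℝ)| ^ e := by gcongr
    have h5 : (N * (H : ℝ) ^ (tq e)) ^ e = N ^ e * (H : ℝ) ^ (tq e * e) := by
      rw [mul_pow, ← Real.rpow_natCast ((H : ℝ) ^ (tq e)) e, ← Real.rpow_mul hH0.le]
    have h6 : (H : ℝ) ≤ (H : ℝ) ^ (tq e * e) := by
      nth_rewrite 1 [← Real.rpow_one (H : ℝ)]
      apply Real.rpow_le_rpow_of_exponent_le hHr
      have h7 : tq e * e = 5 / 9 * e + 1 / 3 := by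
        rw [tq]
        have : (e : ℝ) ≠ 0 := by positivity
        field_simp
      rw [h7]
      linarith
    have h7 : N ≤ N ^ e := le_self_pow₀ hN (by omega)
    calc N * |(q : ℝ)| ≤ N ^ e * (H : ℝ) := by gcongr
      _ ≤ N ^ e * (H : ℝ) ^ (tq e * e) := by gcongr
      _ = (N * (H : ℝ) ^ (tq e)) ^ e := h5.symm
      _ ≤ _ := h4

/-- **Theorem.** -/
theorem final (e : ℕ) (he : 1 ≤ e) (G : ℤ[X]) (hG : G.Monic) (hGd : G.natDegree = 3 * e) :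
    ∃ C : ℝ, 1 ≤ C ∧ (e = 1 → C = 203 ^ 2 + 32 ^ 2) ∧ ∀ ε : ℝ, 0 < ε → ∃ K : ℝ, 0 < K ∧ ∀ H : ℕ, 1 ≤ H →
      (((Icc (-(H : ℤ)) H).filter (fun q => ¬ Good e C G q)).card : ℝ) ≤ K * (H : ℝ) ^ (tq e + ε) := by
  obtain ⟨C, C₁, hC, hC', hC₁, hlarge⟩ := largeAll e he G hG hGd
  have h32' : (0 : ℝ) < 32 ^ (e + 1) := by positivity
  refine ⟨C + 32 ^ (e + 1), by linarith, ?_, ?_⟩
  · rintro rfl
    rw [hC' rfl]
  intro ε hε
  obtain ⟨K, hK, htot⟩ := total1 e he (fun i => G.coeff i) C₁ hC₁ ε hε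
  refine ⟨K, hK, ?_⟩
  intro H hH
  refine le_trans ?_ (htot H hH)
  have hsub : (Icc (-(H : ℤ)) H).filter (fun q => ¬ Good e (C + 32 ^ (e + 1)) G q) ⊆
      exqs (fun i : Fin (3 * e) => G.coeff i) H (C₁ * (H : ℝ) ^ (tq e)) := by
    intro q hq
    rw [mem_filter] at hq
    obtain ⟨hq1, hq2⟩ := hq
    rw [exqs, mem_filter]
    refine ⟨hq1, ?_⟩
    by_contra hcon
    push Not at hcon
    apply hq2
    intro n x hne
    have hk0 : (G.eval n + q) ^ 2 - x ^ 3 ≠ 0 := sub_ne_zero.2 hne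
    have hk1 : (1 : ℝ) ≤ |(((G.eval n + q) ^ 2 - x ^ 3 : ℤ) : ℝ)| := by
      have : 1 ≤ |(G.eval n + q) ^ 2 - x ^ 3| := Int.one_le_abs hk0
      exact_mod_cast this
    have h32 : (0 : ℝ) < 32 ^ (e + 1) := by positivity
    rcases le_total |(n : ℝ)| (C₁ * (H : ℝ) ^ (tq e)) with h | h
    · have h1 := hcon n h
      rw [← mv_coeff G hG e hGd] at h1
      have h2 : |x| ≤ 32 * |(G.eval n + q) ^ 2 - x ^ 3| := by
        by_contra h3
        push Not at h3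
        exact h1 ⟨x, hne, h3⟩
      have h3 : |(x : ℝ)| ≤ 32 * |(((G.eval n + q) ^ 2 - x ^ 3 : ℤ) : ℝ)| := by exact_mod_cast h2
      refine (of_linear e he 32 _ _ (by norm_num) hk1 (abs_nonneg _) h3).trans ?_
      gcongr
      linarith
    · rw [mem_Icc, ← abs_le] at hq1
      refine (hlarge H hH n q x hq1 h hne).trans ?_
      gcongr
      linarith
  exact_mod_cast Finset.card_le_card hsub

end T9h23.Dv
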